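import Pool.Agent.Helper43.TD.Level

/-!
# The skeleton for the top-down step

`φ : K →+ Q` has kernel `⟨g⟩`, `col` is a decomposition of the Cayley multigraph of `Q` with the labels
`φ ∘ f` into Hamilton cycles, `c₁` the base class, `A` the set of the classes with a disconnected
lift. `T` is a spanning tree of `Q` (edges as pairs `(q, j)`), `σ` a section of `φ` along `T`.
For `a ∈ A` there is a window `w₁ a = X Y`, `w₂ a = Y Z` in the class `a`; the edges of `T` are edges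
of the class `c₁` or window edges.
-/

set_option autoImplicit false

namespace Pool.Agent.Helper43.TD

open Finset Pool.Agent.Helper74.BL

variable {K Q : Type*} [AddCommGroup K] [AddCommGroup Q] {J : Type*}

/-- a spanning tree `T` (connected, with side functions) and a section along `T` -/
structure Tree (φ : K →+ Q) (f : J → K) (T : Finset (Q × J)) (σ : Q → K) : Prop where
  sec : ∀ q, φ (σ q) = q
  edge : ∀ e ∈ T, σ (e.1 + φ (f e.2)) = σ e.1 + f e.2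
  conn : ∀ C : Q → ZMod 2, (∀ e ∈ T, C e.1 = C (e.1 + φ (f e.2))) → ∀ x y, C x = C y
  side : ∀ e ∈ T, ∃ S : Q → ZMod 2, S e.1 = 0 ∧ S (e.1 + φ (f e.2)) = 1 ∧
    ∀ e' ∈ T, e' ≠ e → S e'.1 = S (e'.1 + φ (f e'.2))

/-- the vertices of the window of the class `a` -/
def Win (X Y Z : J → Q) (a : J) (v : Q) : Prop := v = X a ∨ v = Y a ∨ v = Z a

/-- an edge of the class `c₁` at `X a` whose other end is in no window of the other classes -/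
def CherryEdge (φ : K →+ Q) (f : J → K) (col : Q → J → J) (c₁ : J) (A : Finset J)
    (T : Finset (Q × J)) (X Y Z : J → Q) (a : J) (u : Q × J) : Prop :=
  u ∈ T ∧ col u.1 u.2 = c₁ ∧ ∃ p, ends (fun j => φ (f j)) u = s(X a, p) ∧ p ≠ X a ∧
    ∀ b ∈ A, b ≠ c₁ → ¬ Win X Y Z b p

/-- the skeleton -/
structure Skel (φ : K →+ Q) (f : J → K) (col : Q → J → J) (c₁ : J) (A : Finset J)
    (T : Finset (Q × J)) (σ : Q → K) (X Y Z : J → Q) (w₁ w₂ : J → Q × J) : Prop where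
  tree : Tree φ f T σ
  w₁T : ∀ a ∈ A, w₁ a ∈ T
  w₂T : ∀ a ∈ A, w₂ a ∈ T
  w₁c : ∀ a ∈ A, col (w₁ a).1 (w₁ a).2 = a
  w₂c : ∀ a ∈ A, col (w₂ a).1 (w₂ a).2 = a
  w₁e : ∀ a ∈ A, ends (fun j => φ (f j)) (w₁ a) = s(X a, Y a)
  w₂e : ∀ a ∈ A, ends (fun j => φ (f j)) (w₂ a) = s(Z a, Y a)
  ne : ∀ a ∈ A, X a ≠ Y a ∧ Z a ≠ Y a ∧ X a ≠ Z a
  cls : ∀ e ∈ T, col e.1 e.2 = c₁ ∨ ∃ a ∈ A, e = w₁ a ∨ e = w₂ a
  disj : ∀ a ∈ A, ∀ b ∈ A, a ≠ b → ∀ v, Win X Y Z a v → ¬ Win X Y Z b v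
  degY : ∀ a ∈ A, a ≠ c₁ → ∀ e ∈ T, ∀ e' ∈ T, col e.1 e.2 = c₁ → col e'.1 e'.2 = c₁ →
    Y a ∈ ends (fun j => φ (f j)) e → Y a ∈ ends (fun j => φ (f j)) e' → e = e'
  degZ : ∀ a ∈ A, a ≠ c₁ → ∀ e ∈ T, ∀ e' ∈ T, col e.1 e.2 = c₁ → col e'.1 e'.2 = c₁ →
    Z a ∈ ends (fun j => φ (f j)) e → Z a ∈ ends (fun j => φ (f j)) e' → e = e'
  degX : ∀ a ∈ A, a ≠ c₁ → (∀ e ∈ T, col e.1 e.2 = c₁ → X a ∉ ends (fun j => φ (f j)) e) ∨
    ∃ u v, u ≠ v ∧ CherryEdge φ f col c₁ A T X Y Z a u ∧ CherryEdge φ f col c₁ A T X Y Z a v ∧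
      ∀ e ∈ T, col e.1 e.2 = c₁ → X a ∈ ends (fun j => φ (f j)) e → e = u ∨ e = v

/-- the final step from the skeleton (to be proved: helper43) -/
def SkelStep : Prop :=
  ∀ (K Q J : Type) [AddCommGroup K] [AddCommGroup Q] [Fintype K] [DecidableEq K] [Fintype J]
    [DecidableEq J] (φ : K →+ Q) (g : K) (f : J → K) (col : Q → J → J) (c₁ : J) (A : Finset J)
    (T : Finset (Q × J)) (σ : Q → K) (X Y Z : J → Q) (w₁ w₂ : J → Q × J),
    (∀ x, φ x = 0 ↔ x ∈ AddSubgroup.zmultiples g) → g ≠ 0 → Odd (addOrderOf g) →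
    (∀ j, φ (f j) ≠ 0) →
    Deg2 (fun j => φ (f j)) col → (∀ c, Conn (fun j => φ (f j)) col c) →
    (∀ a, a ∈ A ↔ ¬ ∀ C : K → ZMod 2, (∀ x j, col (φ x) j = a → C x = C (x + f j)) →
      ∀ x y, C x = C y) →
    Skel φ f col c₁ A T σ X Y Z w₁ w₂ → EDec (lab g f)

end Pool.Agent.Helper43.TD
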