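import Pool.Agent.Helper74.BL.Base

/-!
# Cyclic enumeration of a connected 2-regular class

A class `H` of a multigraph `ends : E → Sym2 V` is 2-regular if every vertex has multiplicity 2 in
it. A connected 2-regular class on `M ≥ 3` vertices is a cycle `x : ZMod M ≃ V` with edges
`e : ZMod M → E`, `ends (e i) = s(x i, x (i + 1))`.
-/

set_option autoImplicit false

namespace Pool.Agent.Helper43.TD

open Finset Pool.Agent.Helper74.BL

section Abstract

variable {V E : Type*} [DecidableEq V]

/-- the multiplicity of a vertex in an edge -/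
def mult (v : V) : Sym2 V → ℕ :=
  Sym2.lift ⟨fun x y => (if x = v then 1 else 0) + (if y = v then 1 else 0),
    fun _ _ => add_comm _ _⟩

@[simp]
theorem mult_mk (v x y : V) : mult v s(x, y) = (if x = v then 1 else 0) + (if y = v then 1 else 0) :=
  rfl

theorem mult_pos {v : V} {z : Sym2 V} : 0 < mult v z ↔ v ∈ z := by
  induction z using Sym2.ind with
  | _ x y =>
    rw [mult_mk, Sym2.mem_iff]
    by_cases h1 : x = v
    · simp [h1]
    · by_cases h2 : y = v
      · simp [h2]
      · simp [h1, h2, eq_comm (a := v)]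

/-- the class `H` is 2-regular -/
def Two (ends : E → Sym2 V) (H : Finset E) : Prop := ∀ v, ∑ e ∈ H, mult v (ends e) = 2

/-- a cyclic enumeration of the class `H` -/
structure Enum (ends : E → Sym2 V) (H : Finset E) (M : ℕ) (x : ZMod M ≃ V) (e : ZMod M → E) :
    Prop where
  inj : Function.Injective e
  ends : ∀ i, ends (e i) = s(x i, x (i + 1))
  mem : ∀ a, a ∈ H ↔ ∃ i, e i = a

variable {ends : E → Sym2 V} {H : Finset E}

theorem Two.two_edges (h : Two ends H) {v : V} {a b : E} (ha : a ∈ H) (hb : b ∈ H) (hab : a ≠ b)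
    (hva : v ∈ ends a) (hvb : v ∈ ends b) {c : E} (hc : c ∈ H) (hvc : v ∈ ends c) :
    c = a ∨ c = b := by
  classical
  by_contra hcon
  push Not at hcon
  have h1 := h v
  have h2 : ({a, b, c} : Finset E) ⊆ H := by
    intro z hz
    simp only [mem_insert, mem_singleton] at hz
    rcases hz with rfl | rfl | rfl <;> assumption
  have h3 : ∑ z ∈ ({a, b, c} : Finset E), mult v (ends z) ≤ ∑ z ∈ H, mult v (ends z) :=
    sum_le_sum_of_subset h2
  rw [sum_insert (by simp [hab, hcon.1.symm]), sum_pair hcon.2.symm, h1] at h3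
  have h4 := mult_pos.2 hva
  have h5 := mult_pos.2 hvb
  have h6 := mult_pos.2 hvc
  omega

/-- there is a second edge -/
theorem Two.other (h : Two ends H) {v u : V} {a : E} (ha : a ∈ H) (hva : ends a = s(u, v))
    (huv : u ≠ v) : ∃ b ∈ H, b ≠ a ∧ ∃ y, y ≠ v ∧ ends b = s(v, y) := by
  classical
  have h1 := h v
  rw [← add_sum_erase _ _ ha, hva, mult_mk, if_neg huv, if_pos rfl, zero_add] at h1
  have h2 : ∑ e ∈ H.erase a, mult v (ends e) = 1 := by omega
  have h3 : ∃ b ∈ H.erase a, mult v (ends b) ≠ 0 := by
    by_contra hcon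
    push Not at hcon
    rw [sum_eq_zero hcon] at h2
    exact absurd h2 (by decide)
  obtain ⟨b, hb, hb0⟩ := h3
  have h4 : mult v (ends b) ≤ 1 := by
    rw [← h2]
    exact single_le_sum (f := fun e => mult v (ends e)) (fun _ _ => Nat.zero_le _) hb
  refine ⟨b, (mem_erase.1 hb).2, (mem_erase.1 hb).1, ?_⟩
  have h5 := mult_pos.1 (Nat.pos_of_ne_zero hb0)
  obtain ⟨y, hy⟩ := h5
  refine ⟨y, ?_, hy⟩
  rintro rfl
  rw [hy, mult_mk, if_pos rfl] at h4
  omega

/-- a path with `k` edges -/
def IsPath (ends : E → Sym2 V) (H : Finset E) (k : ℕ) (x : ℕ → V) (e : ℕ → E) : Prop :=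
  Set.InjOn x (Set.Iic k) ∧ ∀ i < k, e i ∈ H ∧ ends (e i) = s(x i, x (i + 1))

theorem IsPath.le_card [Fintype V] {k : ℕ} {x : ℕ → V} {e : ℕ → E} (h : IsPath ends H k x e) :
    k + 1 ≤ Fintype.card V := by
  have h1 : ((Finset.range (k + 1)).image x).card = k + 1 := by
    rw [card_image_of_injOn, card_range]
    intro i hi j hj hij
    refine h.1 ?_ ?_ hij
    · have := mem_range.1 (mem_coe.1 hi)
      exact Set.mem_Iic.2 (by omega)
    · have := mem_range.1 (mem_coe.1 hj)
      exact Set.mem_Iic.2 (by omega)
  rw [← h1]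
  exact card_le_univ _

/-- extension of a path -/
theorem IsPath.extend {k : ℕ} {x : ℕ → V} {e : ℕ → E} (h : IsPath ends H k x e) {b : E}
    (hb : b ∈ H) {y : V} (hy : ends b = s(x k, y)) (hy' : ∀ i ≤ k, x i ≠ y) :
    ∃ x' e', IsPath ends H (k + 1) x' e' := by
  refine ⟨fun i => if i = k + 1 then y else x i, fun i => if i = k then b else e i, ?_, ?_⟩
  · intro i hi j hj hij
    simp only [Set.mem_Iic] at hi hj
    simp only at hij
    split_ifs at hij with h1 h2 h2
    · omega
    · exact absurd hij.symm (hy' j (by omega))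
    · exact absurd hij (hy' i (by omega))
    · exact h.1 (Set.mem_Iic.2 (by omega)) (Set.mem_Iic.2 (by omega)) hij
  · intro i hi
    by_cases h1 : i = k
    · subst h1
      simp only [if_pos]
      rw [if_neg (by omega)]
      exact ⟨hb, hy⟩
    · simp only
      rw [if_neg h1, if_neg (by omega), if_neg (by omega)]
      exact h.2 i (by omega)

variable [Fintype V]

theorem Two.exists_enum (h : Two ends H) (hc : Cn ends H) (h3 : 2 ≤ Fintype.card V) :
    ∃ (x : ZMod (Fintype.card V) ≃ V) (e : ZMod (Fintype.card V) → E),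
      Enum ends H (Fintype.card V) x e := by
  classical
  -- a longest path
  have hV : Nonempty V := Fintype.card_pos_iff.1 (by omega)
  obtain ⟨v₀⟩ := hV
  have hex : ∃ k, (∃ x e, IsPath ends H k x e) ∧ ¬ ∃ x e, IsPath ends H (k + 1) x e := by
    by_contra hcon
    push Not at hcon
    -- an edge exists
    have hE : H.Nonempty := by
      rw [nonempty_iff_ne_empty]
      rintro rfl
      have := h v₀
      simp at this
    obtain ⟨e₀, -⟩ := hE
    have h1 : ∀ k, ∃ x e, IsPath ends H k x e := by
      intro k
      induction k with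
      | zero => exact ⟨fun _ => v₀, fun _ => e₀, by
          intro i hi j hj _
          simp only [Set.mem_Iic] at hi hj
          omega, fun i hi => absurd hi (Nat.not_lt_zero i)⟩
      | succ k ih =>
        obtain ⟨x, e, hx⟩ := hcon k ih
        exact ⟨x, e, hx⟩
    obtain ⟨x, e, hx⟩ := h1 (Fintype.card V)
    have := hx.le_card
    omega
  obtain ⟨k, ⟨x, e, hP⟩, hmax⟩ := hex
  -- `k` is positive
  have hk : 0 < k := by
    rcases Nat.eq_zero_or_pos k with rfl | h1
    · exfalso
      have h4 : ∀ z, z = x 0 := by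
        intro z
        have h5 := hc (fun v => if v = x 0 then 1 else 0) (by
          intro a ha
          by_cases h6 : x 0 ∈ ends a
          · obtain ⟨y, hy⟩ := h6
            have h7 : x 0 = y := by
              by_contra h8
              refine hmax (hP.extend ha hy ?_)
              intro i hi
              have : i = 0 := by omega
              rw [this]
              exact h8
            rw [hy, ← h7, bd_mk, z2_add_self]
          · revert h6
            generalize ends a = w
            induction w using Sym2.ind with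
            | _ p q =>
              intro h6
              rw [Sym2.mem_iff, not_or] at h6
              rw [bd_mk_eq_zero, if_neg (fun h => h6.1 h.symm), if_neg (fun h => h6.2 h.symm)])
          (x 0) z
        simp only [if_pos] at h5
        by_contra h6
        rw [if_neg h6] at h5
        exact absurd h5 (by decide)
      have h5 : Fintype.card V ≤ 1 := Fintype.card_le_one_iff.2 fun a b => by rw [h4 a, h4 b]
      omega
    · exact h1
  have hinj : ∀ i j, i ≤ k → j ≤ k → x i = x j → i = j := fun i j hi hj =>
    hP.1 (Set.mem_Iic.2 hi) (Set.mem_Iic.2 hj)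
  -- the closing edge
  have hek := hP.2 (k - 1) (by omega)
  rw [Nat.sub_add_cancel hk] at hek
  obtain ⟨b, hb, hbe, y, hyk, hby⟩ := h.other hek.1 hek.2 (fun h1 => by
    have := hinj _ _ (by omega) le_rfl h1
    omega)
  have hy : ∃ i ≤ k, x i = y := by
    by_contra hcon
    push Not at hcon
    exact hmax (hP.extend hb hby hcon)
  obtain ⟨i, hik, rfl⟩ := hy
  have hik' : i < k := lt_of_le_of_ne hik (fun h1 => hyk (by rw [h1]))
  have hi0 : i = 0 := by
    by_contra hi0
    have h4 := hP.2 (i - 1) (by omega)
    rw [Nat.sub_add_cancel (by omega)] at h4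
    have h5 := hP.2 i hik'
    have h6 : e (i - 1) ≠ e i := by
      intro h7
      rw [h7, h5.2] at h4
      rcases Sym2.eq_iff.1 h4.2 with ⟨h8, -⟩ | ⟨-, h8⟩
      · have := hinj _ _ (by omega) (by omega) h8
        omega
      · have := hinj _ _ (by omega) (by omega) h8
        omega
    rcases h.two_edges h4.1 h5.1 h6 (v := x i) (by rw [h4.2]; simp) (by rw [h5.2]; simp) hb
      (by rw [hby]; simp) with h7 | h7
    · rw [h7, h4.2] at hby
      rcases Sym2.eq_iff.1 hby with ⟨h8, -⟩ | ⟨h8, h9⟩
      · have := hinj _ _ (by omega) (by omega) h8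
        omega
      · have := hinj _ _ (by omega) (by omega) h9
        omega
    · by_cases h10 : i = k - 1
      · rw [h10] at h7
        exact hbe h7
      · rw [h7, h5.2] at hby
        rcases Sym2.eq_iff.1 hby with ⟨h8, -⟩ | ⟨-, h9⟩
        · have := hinj _ _ (by omega) (by omega) h8
          omega
        · have := hinj _ _ (by omega) (by omega) h9
          omega
  subst hi0
  -- the cycle
  set e' : ℕ → E := fun i => if i < k then e i else b with he'
  have he'1 : ∀ i < k, e' i = e i := fun i hi => if_pos hi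
  have he'2 : e' k = b := if_neg (lt_irrefl k)
  have hmem : ∀ i ≤ k, e' i ∈ H := by
    intro i hi
    by_cases h1 : i < k
    · rw [he'1 i h1]
      exact (hP.2 i h1).1
    · rw [show i = k by omega, he'2]
      exact hb
  have hends : ∀ i < k, ends (e' i) = s(x i, x (i + 1)) := by
    intro i hi
    rw [he'1 i hi]
    exact (hP.2 i hi).2
  have hendk : ends (e' k) = s(x k, x 0) := by rw [he'2, hby]
  have heinj : ∀ i j, i < j → j ≤ k → e' i ≠ e' j := by
    intro i j hij hj h1
    by_cases h2 : j < k
    · have h4 := hends i (by omega)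
      rw [h1, hends j h2] at h4
      rcases Sym2.eq_iff.1 h4 with ⟨h8, -⟩ | ⟨h8, h9⟩
      · have := hinj _ _ (by omega) (by omega) h8
        omega
      · have := hinj _ _ (by omega) (by omega) h8
        have := hinj _ _ (by omega) (by omega) h9
        omega
    · have h5 : j = k := by omega
      subst h5
      have h4 := hends i (by omega)
      rw [h1, hendk] at h4
      rcases Sym2.eq_iff.1 h4 with ⟨h8, -⟩ | ⟨h8, h9⟩
      · have := hinj _ _ (by omega) (by omega) h8
        omega
      · have h10 := hinj _ _ (by omega) (by omega) h8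
        have h11 := hinj _ _ (by omega) (by omega) h9
        rw [he'2, he'1 i (by omega)] at h1
        apply hbe
        rw [← h1]
        congr 1
        omega
  -- saturated vertices
  have hsat : ∀ i ≤ k, ∀ a ∈ H, x i ∈ ends a → ∃ j ≤ k, e' j = a := by
    intro i hi a ha hxa
    rcases Nat.eq_zero_or_pos i with rfl | hi0
    · rcases h.two_edges (hmem 0 (by omega)) (hmem k le_rfl) (heinj 0 k hk le_rfl) (v := x 0)
        (by rw [hends 0 hk]; simp) (by rw [hendk]; simp) ha hxa with h1 | h1
      · exact ⟨0, by omega, h1.symm⟩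
      · exact ⟨k, le_rfl, h1.symm⟩
    · have h1 := hends (i - 1) (by omega)
      rw [Nat.sub_add_cancel hi0] at h1
      have h2 : x i ∈ ends (e' i) := by
        by_cases h4 : i < k
        · rw [hends i h4]
          simp
        · rw [show i = k by omega, hendk]
          simp
      rcases h.two_edges (hmem (i - 1) (by omega)) (hmem i hi) (heinj (i - 1) i (by omega) hi)
        (v := x i) (by rw [h1]; simp) h2 ha hxa with h1 | h1
      · exact ⟨i - 1, by omega, h1.symm⟩
      · exact ⟨i, hi, h1.symm⟩
  -- all vertices are on the cycle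
  have hall : ∀ z, ∃ i ≤ k, x i = z := by
    intro z
    have h5 := hc (fun v => if ∃ i ≤ k, x i = v then 1 else 0) (by
      intro a ha
      have h6 : (∃ i ≤ k, x i ∈ ends a) → ∀ v ∈ ends a, ∃ i ≤ k, x i = v := by
        rintro ⟨i, hi, hx⟩ v hv
        obtain ⟨j, hj, rfl⟩ := hsat i hi a ha hx
        by_cases h7 : j < k
        · rw [hends j h7, Sym2.mem_iff] at hv
          rcases hv with rfl | rfl
          · exact ⟨j, hj, rfl⟩
          · exact ⟨j + 1, by omega, rfl⟩
        · rw [show j = k by omega, hendk, Sym2.mem_iff] at hv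
          rcases hv with rfl | rfl
          · exact ⟨k, le_rfl, rfl⟩
          · exact ⟨0, by omega, rfl⟩
      revert h6
      generalize ends a = w
      induction w using Sym2.ind with
      | _ p q =>
        intro h6
        rw [bd_mk_eq_zero]
        by_cases h7 : ∃ i ≤ k, x i = p
        · obtain ⟨i, hi, rfl⟩ := h7
          rw [if_pos ⟨i, hi, rfl⟩, if_pos (h6 ⟨i, hi, by simp⟩ q (by simp))]
        · rw [if_neg h7, if_neg]
          rintro ⟨i, hi, rfl⟩
          exact h7 (h6 ⟨i, hi, by simp⟩ p (by simp))) (x 0) z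
    rw [if_pos ⟨0, by omega, rfl⟩] at h5
    by_contra h6
    rw [if_neg h6] at h5
    exact absurd h5 (by decide)
  have hM : Fintype.card V = k + 1 := by
    apply le_antisymm
    · have h4 : (univ : Finset V) ⊆ (Finset.range (k + 1)).image x := by
        intro z _
        obtain ⟨i, hi, rfl⟩ := hall z
        exact mem_image_of_mem _ (mem_range.2 (by omega))
      have := card_le_card h4
      have h6 := card_image_le (s := Finset.range (k + 1)) (f := x)
      rw [card_range] at h6
      rw [card_univ] at this
      omega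
    · exact hP.le_card
  rw [hM]
  have hval : ∀ i : ZMod (k + 1), i.val ≤ k := fun i => by
    have := ZMod.val_lt i
    omega
  have hsucc : ∀ i : ZMod (k + 1), (i.val < k → (i + 1).val = i.val + 1) ∧
      (i.val = k → (i + 1).val = 0) := by
    intro i
    have h1 : (i + 1).val = (i.val + 1) % (k + 1) := by
      rw [ZMod.val_add]
      congr 2
      rcases Nat.exists_eq_succ_of_ne_zero hk.ne' with ⟨m, rfl⟩
      rw [ZMod.val_one'' (by omega)]
    constructor
    · intro h2
      rw [h1, Nat.mod_eq_of_lt (by omega)]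
    · intro h2
      rw [h1, h2, Nat.mod_self]
  refine ⟨Equiv.ofBijective (fun i => x i.val) ⟨?_, ?_⟩, fun i => e' i.val, ?_, ?_, ?_⟩
  · intro i j hij
    exact ZMod.val_injective _ (hinj _ _ (hval i) (hval j) hij)
  · intro z
    obtain ⟨i, hi, rfl⟩ := hall z
    refine ⟨(i : ZMod (k + 1)), ?_⟩
    simp only
    rw [ZMod.val_natCast, Nat.mod_eq_of_lt (by omega)]
  · intro i j hij
    apply ZMod.val_injective
    rcases lt_trichotomy i.val j.val with h1 | h1 | h1
    · exact absurd hij (heinj _ _ h1 (hval j))
    · exact h1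
    · exact absurd hij.symm (heinj _ _ h1 (hval i))
  · intro i
    simp only [Equiv.ofBijective_apply]
    by_cases h1 : i.val < k
    · rw [(hsucc i).1 h1, hends _ h1]
    · have h2 : i.val = k := by
        have := hval i
        omega
      rw [(hsucc i).2 h2, h2, hendk]
  · intro a
    constructor
    · intro ha
      have h1 : ∃ v, v ∈ ends a := by
        generalize ends a = w
        induction w using Sym2.ind with
        | _ p q => exact ⟨p, by simp⟩
      obtain ⟨v, hv⟩ := h1
      obtain ⟨i, hi, rfl⟩ := hall v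
      obtain ⟨j, hj, rfl⟩ := hsat i hi a ha hv
      refine ⟨(j : ZMod (k + 1)), ?_⟩
      rw [ZMod.val_natCast, Nat.mod_eq_of_lt (by omega)]
    · rintro ⟨i, rfl⟩
      exact hmem _ (hval i)

end Abstract

section Cayley

variable {K : Type*} [AddCommGroup K] [Fintype K] [DecidableEq K] {I : Type*} [Fintype I]
  [DecidableEq I]

/-- the classes of a 2-factorisation are 2-regular -/
theorem two_of_deg2 {f : I → K} {col : K → I → I} (h : Deg2 f col) (c : I) :
    Two (ends f) (cls col c) := by
  intro v
  unfold cls ends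
  rw [sum_filter, Fintype.sum_prod_type]
  simp only [mult_mk]
  have h1 := h v c
  unfold hdeg at h1
  rw [← h1, card_filter, card_filter]
  have h2 : ∀ y : K, ∀ i : I, (if col y i = c then (if y = v then 1 else 0) +
      (if y + f i = v then 1 else 0) else 0) =
      (if y = v then (if col v i = c then 1 else 0) else 0) +
      (if y = v - f i then (if col (v - f i) i = c then 1 else 0) else 0) := by
    intro y i
    have h3 : y + f i = v ↔ y = v - f i := eq_sub_iff_add_eq.symm
    by_cases h4 : y = v
    · subst h4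
      by_cases h5 : y = y - f i
      · by_cases h6 : col y i = c
        · simp [h3, h6, ← h5]
        · simp [h3, h6, ← h5]
      · by_cases h6 : col y i = c
        · simp [h3, h6, h5]
        · simp [h6, h5]
    · by_cases h5 : y = v - f i
      · subst h5
        by_cases h6 : col (v - f i) i = c
        · simp [h6, h4]
        · simp [h6, h4]
      · simp [h3, h4, h5]
  simp only [h2, sum_add_distrib]
  congr 1
  · rw [sum_comm]
    simp
  · rw [sum_comm]
    simp

/-- the cyclic enumeration of a class with its edges -/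
theorem exists_enum_cls {f : I → K} {col : K → I → I} (hd : Deg2 f col) {c : I}
    (hc : Conn f col c) (hM : 2 ≤ Fintype.card K) :
    ∃ (x : ZMod (Fintype.card K) ≃ K) (e : ZMod (Fintype.card K) → K × I),
      Enum (ends f) (cls col c) (Fintype.card K) x e :=
  (two_of_deg2 hd c).exists_enum (conn_iff_cn.1 hc) hM

theorem Enum.edge {f : I → K} {col : K → I → I} {c : I} {M : ℕ} {x : ZMod M ≃ K}
    {e : ZMod M → K × I} (h : Enum (Pool.Agent.Helper74.BL.ends f) (cls col c) M x e) (i : ZMod M) :
    col (e i).1 (e i).2 = c ∧ (((e i).1 = x i ∧ (e i).1 + f (e i).2 = x (i + 1)) ∨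
      ((e i).1 = x (i + 1) ∧ (e i).1 + f (e i).2 = x i)) := by
  refine ⟨mem_cls.1 ((h.mem _).2 ⟨i, rfl⟩), ?_⟩
  have h1 := h.ends i
  unfold Pool.Agent.Helper74.BL.ends at h1
  exact Sym2.eq_iff.1 h1

end Cayley

/-- the cyclic enumeration of a class -/
theorem exists_cyc {K : Type*} [AddCommGroup K] [Finite K] {I : Type*} [Fintype I] [DecidableEq I]
    {f : I → K} {col : K → I → I} (hd : Deg2 f col) {c : I}
    (hc : Conn f col c) (hM : 2 ≤ Nat.card K) :
    ∃ x : ZMod (Nat.card K) ≃ K,
      (∀ i, ∃ j, (col (x i) j = c ∧ x (i + 1) = x i + f j) ∨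
        (col (x (i + 1)) j = c ∧ x i = x (i + 1) + f j)) ∧
      ∀ y j, col y j = c → ∃ i, (y = x i ∧ y + f j = x (i + 1)) ∨
        (y = x (i + 1) ∧ y + f j = x i) := by
  classical
  have := Fintype.ofFinite K
  rw [Nat.card_eq_fintype_card] at hM ⊢
  obtain ⟨x, e, h⟩ := exists_enum_cls hd hc hM
  refine ⟨x, fun i => ?_, fun y j hy => ?_⟩
  · obtain ⟨h1, h2 | h2⟩ := h.edge i
    · exact ⟨(e i).2, Or.inl ⟨by rw [← h2.1, h1], by rw [← h2.2, h2.1]⟩⟩
    · exact ⟨(e i).2, Or.inr ⟨by rw [← h2.1, h1], by rw [← h2.2, h2.1]⟩⟩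
  · obtain ⟨i, hi⟩ := (h.mem (y, j)).1 (mem_cls.2 hy)
    have h1 := (h.edge i).2
    rw [hi] at h1
    exact ⟨i, h1⟩

end Pool.Agent.Helper43.TD
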