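import Pool.Agent.Helper4.BL.Letters

/-!
# Single letters (S1) and cherries (S2): statements

`S1K`, `S2K` are the two steps for the base class `c`, in terms of the letter sets of `Helper4.BL.Letters`.
-/

set_option autoImplicit false

namespace Pool.Agent.Helper43.TD

open Finset Pool.Agent.Helper74.BL Pool.Agent.Helper4.BL

/-- the class `c` is connected after the letters `L` -/
def VC {K : Type*} [AddCommGroup K] {J : Type*} (g : K) (f : J → K) (base : K → J → J)
    (c : J) (L : Finset (K × J)) : Prop :=
  ∀ C : K → ZMod 2, ConstV g f base L c C → ∀ x y, C x = C y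

/-- (S1): on an edge without letters there is a neutral letter -/
def S1K : Prop :=
  ∀ (K J : Type) [AddCommGroup K] [Fintype K] [DecidableEq K] [Fintype J] [DecidableEq J]
    (g : K) (f : J → K) (base : K → J → J) (c : J) (L : Finset (K × J)) (x : K) (j : J),
    g ≠ 0 → Odd (addOrderOf g) → f j ≠ 0 → (∀ t : ℤ, f j ≠ t • g) →
    Deg2 f base → (∀ x j, base (x + g) j = base x j) →
    Compat g f base L → (∀ l ∈ L, base l.1 l.2 = c) → VC g f base c L →
    base x j = c → (∀ t : ℤ, (x + t • g, j) ∉ L) →
    ∃ t : ℤ, Compat g f base (insert (x + t • g, j) L) ∧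
      VC g f base c (insert (x + t • g, j) L)

/-- (S2): two edges with a common vertex `z`, both without letters: one of the two letter pairs in the
gaps `0`, `1` above `z` is neutral. `x`, `x'` are the tails of the edges (`x = z` or `x + f j = z`) -/
def S2K : Prop :=
  ∀ (K J : Type) [AddCommGroup K] [Fintype K] [DecidableEq K] [Fintype J] [DecidableEq J]
    (g : K) (f : J → K) (base : K → J → J) (c : J) (L : Finset (K × J)) (z x x' : K) (j j' : J),
    g ≠ 0 → Odd (addOrderOf g) → (∀ t : ℤ, f j ≠ t • g) → (∀ t : ℤ, f j' ≠ t • g) →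
    Deg2 f base → (∀ x j, base (x + g) j = base x j) →
    Compat g f base L → (∀ l ∈ L, base l.1 l.2 = c) → VC g f base c L →
    base x j = c → base x' j' = c → (∀ t : ℤ, (x, j) ≠ (x' + t • g, j')) →
    (x = z ∨ x + f j = z) → (x' = z ∨ x' + f j' = z) →
    (∀ t : ℤ, (x + t • g, j) ∉ L) → (∀ t : ℤ, (x' + t • g, j') ∉ L) →
    (Compat g f base (insert (x, j) (insert (x' + g, j') L)) ∧
      VC g f base c (insert (x, j) (insert (x' + g, j') L))) ∨
    (Compat g f base (insert (x + g, j) (insert (x', j') L)) ∧
      VC g f base c (insert (x + g, j) (insert (x', j') L)))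

end Pool.Agent.Helper43.TD
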