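import Pool.Agent.Helper43.TD.Stages

/-!
# The final step from the skeleton
-/

set_option autoImplicit false
set_option linter.unusedSectionVars false

namespace Pool.Agent.Helper43.TD

open Finset Pool.Agent.Helper74.BL Pool.Agent.Helper4.BL

/-- degrees in the lift -/
theorem deg2_base {K Q J : Type*} [AddCommGroup K] [AddCommGroup Q] [Fintype J] [DecidableEq J]
    {φ : K →+ Q} {f : J → K} {col : Q → J → J} (h : Deg2 (fun j => φ (f j)) col) :
    Deg2 f (fun x j => col (φ x) j) := by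
  intro x c
  have h1 := h (φ x) c
  unfold hdeg at h1 ⊢
  simp only [map_sub]
  exact h1

theorem nat_off {N : ℕ} (hN : 0 < N) (x m : ZMod N) (k : ℕ) (hk : k < N)
    (h : x = m + (k : ZMod N)) : (x - m).val = k := by
  have : NeZero N := ⟨hN.ne'⟩
  rw [h, add_sub_cancel_left, ZMod.val_natCast, Nat.mod_eq_of_lt hk]

/-- the final step -/
theorem skelStep (S1 : S1K) (S2 : S2K) : SkelStep := by
  intro K Q J _ _ _ _ _ _ φ g f col c₁ A T σ X Y Z w₁ w₂ hker hg hodd hf hdQ hcQ hA sk
  classical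
  have hC : Crd φ g σ := ⟨hker, sk.tree.sec⟩
  have hT := sk.tree
  have hd := deg2_base hdQ
  have hNpos : 0 < addOrderOf g := addOrderOf_pos g
  have : NeZero (addOrderOf g) := ⟨hNpos.ne'⟩
  have hN2 : addOrderOf g % 2 = 1 := Nat.odd_iff.1 hodd
  have hN1 : addOrderOf g ≠ 1 := fun h => hg (AddMonoid.addOrderOf_eq_one_iff.1 h)
  set base : K → J → J := fun x j => col (φ x) j with hbase
  -- the levels
  have hlev : ∀ c, ∃ (G : ℕ) (l : K → ZMod G), Level g f base c G l := fun c =>
    exists_level φ g hker (hcQ c)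
  choose G l hl using hlev
  have hGN : ∀ c, G c ≤ addOrderOf g := fun c => Nat.le_of_dvd hNpos (hl c).dvd
  have hGodd : ∀ c, G c % 2 = 1 := by
    intro c
    have := Odd.of_dvd_nat hodd (hl c).dvd
    exact Nat.odd_iff.1 this
  have hG3 : ∀ a ∈ A, 3 ≤ G a := by
    intro a ha
    have h1 : G a ≠ 1 := by
      intro h1
      apply (hA a).1 ha
      intro C hC x y
      refine (hl a).conn C hC x y ?_
      have : Subsingleton (ZMod (G a)) := by
        rw [h1]
        infer_instance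
      exact Subsingleton.elim _ _
    have h2 := hGodd a
    omega
  have hvcA : ∀ a, a ∉ A → ∀ C : K → ZMod 2, (∀ x j, base x j = a → C x = C (x + f j)) →
      ∀ x y, C x = C y := by
    intro a ha
    by_contra h1
    exact ha ((hA a).2 h1)
  -- the window edges
  have hw12 : ∀ a ∈ A, w₁ a ≠ w₂ a := by
    intro a ha h1
    have h2 := sk.w₁e a ha
    rw [h1, sk.w₂e a ha] at h2
    obtain ⟨-, n2, n3⟩ := sk.ne a ha
    rcases Sym2.eq_iff.1 h2 with ⟨h3, -⟩ | ⟨h3, -⟩
    · exact n3 h3.symm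
    · exact n2 h3
  have hww1 : ∀ a ∈ A, ∀ v, v ∈ ends (fun j => φ (f j)) (w₁ a) → v = X a ∨ v = Y a := by
    intro a ha v hv
    rwa [sk.w₁e a ha, Sym2.mem_iff] at hv
  have hww2 : ∀ a ∈ A, ∀ v, v ∈ ends (fun j => φ (f j)) (w₂ a) → v = Z a ∨ v = Y a := by
    intro a ha v hv
    rwa [sk.w₂e a ha, Sym2.mem_iff] at hv
  have hY1 : ∀ a ∈ A, Y a ∈ ends (fun j => φ (f j)) (w₁ a) := by
    intro a ha
    rw [sk.w₁e a ha]
    simp
  have hY2 : ∀ a ∈ A, Y a ∈ ends (fun j => φ (f j)) (w₂ a) := by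
    intro a ha
    rw [sk.w₂e a ha]
    simp
  -- the dense word of the base class
  set L₀ : Finset (K × J) := if c₁ ∈ A then word g σ (w₁ c₁) (w₂ c₁) 0 (G c₁ - 1) else ∅ with hL₀d
  have hL₀mem : ∀ e t, lt g σ e t ∈ L₀ → c₁ ∈ A ∧ (e = w₁ c₁ ∨ e = w₂ c₁) := by
    intro e t h1
    rw [hL₀d] at h1
    split_ifs at h1 with h2
    · obtain ⟨k, -, hke, -⟩ := (mem_word hC).1 h1
      refine ⟨h2, ?_⟩
      split_ifs at hke
      · exact Or.inl hke
      · exact Or.inr hke
    · exact absurd h1 (notMem_empty _)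
  have hL₀ : Good g f σ base c₁ T L₀ := by
    by_cases h2 : c₁ ∈ A
    · have h3 : L₀ = word g σ (w₁ c₁) (w₂ c₁) 0 (G c₁ - 1) := by rw [hL₀d, if_pos h2]
      rw [h3]
      refine ⟨word_compat hC hT hg hf (sk.w₁T _ h2) (sk.w₂T _ h2) (hw12 _ h2) _ ?_, ?_, ?_, ?_⟩
      · have := hGN c₁
        have := hG3 c₁ h2
        omega
      · intro p hp
        obtain ⟨k, -, rfl⟩ := mem_image.1 hp
        simp only [hbase]
        unfold lt
        simp only
        rw [hC.phi_pt]
        split_ifs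
        · exact sk.w₁c _ h2
        · exact sk.w₂c _ h2
      · exact word_vc hC hT hg hf hd (hl c₁) (hGN c₁) (sk.w₁T _ h2) (sk.w₂T _ h2) (hw12 _ h2)
          (sk.w₁c _ h2) (sk.w₂c _ h2) (hY1 _ h2) (hY2 _ h2) _
      · exact word_inT (sk.w₁T _ h2) (sk.w₂T _ h2) _ _
    · have h3 : L₀ = ∅ := by rw [hL₀d, if_neg h2]
      rw [h3]
      refine ⟨⟨hg, by simp, by simp, by simp, by simp⟩, by simp, ?_, by intro p hp; simp at hp⟩
      intro C hC'
      exact hvcA c₁ h2 C (fun x j hj => hC'.1 x j hj (by simp) (by simp))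
  -- the other classes
  set A' := A.erase c₁ with hA'
  have hA'A : ∀ a, a ∈ A' → a ∈ A ∧ a ≠ c₁ := fun a ha =>
    ⟨(mem_erase.1 ha).2, (mem_erase.1 ha).1⟩
  -- the edges of the base class with a single letter
  set S : Finset (Q × J) := T.filter fun e => col e.1 e.2 = c₁ ∧
    ¬ (c₁ ∈ A ∧ (e = w₁ c₁ ∨ e = w₂ c₁)) ∧ ∀ a ∈ A', X a ∉ ends (fun j => φ (f j)) e with hS
  have hSmem : ∀ e, e ∈ S ↔ e ∈ T ∧ col e.1 e.2 = c₁ ∧
      ¬ (c₁ ∈ A ∧ (e = w₁ c₁ ∨ e = w₂ c₁)) ∧
      ∀ a ∈ A', X a ∉ ends (fun j => φ (f j)) e := by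
    intro e
    rw [hS, mem_filter]
  obtain ⟨L₁, hL₁, ht, hL₁m⟩ := stage1 (T := T) S1 hC hg hodd hf hd hL₀ S
    (fun e he => ((hSmem e).1 he).1) (fun e he => ((hSmem e).1 he).2.1)
    (fun e he t h1 => ((hSmem e).1 he).2.2.1 (hL₀mem e t h1))
  have hLcls : ∀ {L : Finset (K × J)}, Good g f σ base c₁ T L → ∀ e t, lt g σ e t ∈ L →
      col e.1 e.2 = c₁ := by
    intro L hL e t h1
    have h2 := hL.cls _ h1
    simp only [hbase] at h2
    unfold lt at h2
    simp only at h2
    rwa [hC.phi_pt] at h2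
  -- the height of the letter of the base class at `Y a` and `Z a`
  have hVst : ∀ V : J → Q, (∀ a ∈ A, Win X Y Z a (V a)) → (∀ a ∈ A, a ≠ c₁ → ∀ e ∈ T,
      ∀ e' ∈ T, col e.1 e.2 = c₁ → col e'.1 e'.2 = c₁ →
      V a ∈ ends (fun j => φ (f j)) e → V a ∈ ends (fun j => φ (f j)) e' → e = e') →
      ∀ a, ∃ m : ZMod (addOrderOf g), a ∈ A' → ∀ e ∈ T, ∀ t, lt g σ e t ∈ L₁ →
        V a ∈ ends (fun j => φ (f j)) e → t = m := by
    intro V hVW hVdeg a
    by_cases h1 : ∃ e ∈ T, ∃ t, lt g σ e t ∈ L₁ ∧ V a ∈ ends (fun j => φ (f j)) e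
    · obtain ⟨e, he, t, h2, h3⟩ := h1
      refine ⟨t, fun ha e' he' t' h2' h3' => ?_⟩
      have hee := hVdeg a (hA'A a ha).1 (hA'A a ha).2 e he e' he' (hLcls hL₁ e t h2)
        (hLcls hL₁ e' t' h2') h3 h3'
      subst hee
      have hno : ∀ t, lt g σ e t ∉ L₀ := by
        intro t₁ h4
        obtain ⟨h5, h6⟩ := hL₀mem e t₁ h4
        have h7 : Win X Y Z c₁ (V a) := by
          rcases h6 with rfl | rfl
          · rcases hww1 c₁ h5 _ h3 with h8 | h8
            · exact Or.inl h8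
            · exact Or.inr (Or.inl h8)
          · rcases hww2 c₁ h5 _ h3 with h8 | h8
            · exact Or.inr (Or.inr h8)
            · exact Or.inr (Or.inl h8)
        exact sk.disj a (hA'A a ha).1 c₁ h5 (hA'A a ha).2 _ (hVW a (hA'A a ha).1) h7
      rcases (hL₁m e t).1 h2 with h4 | ⟨-, h4⟩
      · exact absurd h4 (hno t)
      · rcases (hL₁m e t').1 h2' with h5 | ⟨-, h5⟩
        · exact absurd h5 (hno t')
        · rw [h4, h5]
    · push Not at h1
      exact ⟨0, fun _ e he t h2 h3 => absurd h3 (h1 e he t h2)⟩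
  have hYst := hVst Y (fun a _ => Or.inr (Or.inl rfl)) sk.degY
  have hZst := hVst Z (fun a _ => Or.inr (Or.inr rfl)) sk.degZ
  choose m hm using hYst
  choose tz htz using hZst
  -- the orientation of the windows
  let o : J → Prop := fun a => (tz a - m a).val % 2 = 1
  let s : J → ZMod (addOrderOf g) := fun a => if o a then m a - 1 else m a
  -- the cherries
  have hch : ∀ a, ∃ u v : Q × J, a ∈ A' → (∃ e ∈ T, col e.1 e.2 = c₁ ∧
      X a ∈ ends (fun j => φ (f j)) e) → u ≠ v ∧ CherryEdge φ f col c₁ A T X Y Z a u ∧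
      CherryEdge φ f col c₁ A T X Y Z a v ∧
      ∀ e ∈ T, col e.1 e.2 = c₁ → X a ∈ ends (fun j => φ (f j)) e → e = u ∨ e = v := by
    intro a
    by_cases h1 : a ∈ A' ∧ ∃ e ∈ T, col e.1 e.2 = c₁ ∧ X a ∈ ends (fun j => φ (f j)) e
    · obtain ⟨ha, e, he, hec, hXe⟩ := h1
      rcases sk.degX a (hA'A a ha).1 (hA'A a ha).2 with h2 | ⟨u, v, huv⟩
      · exact absurd hXe (h2 e he hec)
      · exact ⟨u, v, fun _ _ => huv⟩
    · push Not at h1
      refine ⟨w₁ a, w₁ a, fun ha h2 => ?_⟩
      obtain ⟨e, he, hec, hXe⟩ := h2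
      exact absurd hXe (h1 ha e he hec)
  choose u v huv using hch
  set B : Finset J := A'.filter fun a => ∃ e ∈ T, col e.1 e.2 = c₁ ∧
    X a ∈ ends (fun j => φ (f j)) e with hB
  have hBmem : ∀ a, a ∈ B ↔ a ∈ A' ∧ ∃ e ∈ T, col e.1 e.2 = c₁ ∧
      X a ∈ ends (fun j => φ (f j)) e := by
    intro a
    rw [hB, mem_filter]
  have hBuv : ∀ a ∈ B, u a ≠ v a ∧ CherryEdge φ f col c₁ A T X Y Z a (u a) ∧
      CherryEdge φ f col c₁ A T X Y Z a (v a) ∧
      ∀ e ∈ T, col e.1 e.2 = c₁ → X a ∈ ends (fun j => φ (f j)) e → e = u a ∨ e = v a :=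
    fun a ha => huv a ((hBmem a).1 ha).1 ((hBmem a).1 ha).2
  have hCE : ∀ a, ∀ p, CherryEdge φ f col c₁ A T X Y Z a p →
      X a ∈ ends (fun j => φ (f j)) p := by
    rintro a p ⟨-, -, q, hq, -⟩
    rw [hq]
    simp
  -- the vertices of a cherry edge
  have hCEv : ∀ a ∈ A', ∀ p, CherryEdge φ f col c₁ A T X Y Z a p → ∀ b ∈ A', ∀ q,
      Win X Y Z b q → q ∈ ends (fun j => φ (f j)) p → b = a ∧ q = X a := by
    rintro a ha p ⟨-, -, r, hr, hrX, hrW⟩ b hb q hq hqp
    rw [hr, Sym2.mem_iff] at hqp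
    rcases hqp with rfl | rfl
    · refine ⟨?_, rfl⟩
      by_contra hne
      exact sk.disj b (hA'A b hb).1 a (hA'A a ha).1 hne _ hq (Or.inl rfl)
    · exact absurd hq (hrW b (hA'A b hb).1 (hA'A b hb).2)
  -- a cherry edge is not a window edge of the base class
  have hCEw : ∀ a ∈ A', ∀ p, CherryEdge φ f col c₁ A T X Y Z a p →
      ¬ (c₁ ∈ A ∧ (p = w₁ c₁ ∨ p = w₂ c₁)) := by
    rintro a ha p hp ⟨h1, h2⟩
    have h3 := hCE a p hp
    have h4 : Win X Y Z c₁ (X a) := by
      rcases h2 with rfl | rfl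
      · rcases hww1 c₁ h1 _ h3 with h5 | h5
        · exact Or.inl h5
        · exact Or.inr (Or.inl h5)
      · rcases hww2 c₁ h1 _ h3 with h5 | h5
        · exact Or.inr (Or.inr h5)
        · exact Or.inr (Or.inl h5)
    exact sk.disj a (hA'A a ha).1 c₁ h1 (hA'A a ha).2 _ (Or.inl rfl) h4
  have hCEfree : ∀ a ∈ A', ∀ p, CherryEdge φ f col c₁ A T X Y Z a p → ∀ t,
      lt g σ p t ∉ L₁ := by
    intro a ha p hp t h1
    rcases (hL₁m p t).1 h1 with h2 | ⟨h2, -⟩
    · exact hCEw a ha p hp (hL₀mem p t h2)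
    · exact ((hSmem p).1 h2).2.2.2 a ha (hCE a p hp)
  obtain ⟨L₃, hL₃, hu, hv, hhv, hL₃m⟩ := stage3 S2 hC hT hg hodd hf hd hL₁ B X u v s
    (fun a ha => ⟨(hBuv a ha).2.1.1, (hBuv a ha).2.1.2.1, hCE a _ (hBuv a ha).2.1,
      hCEfree a ((hBmem a).1 ha).1 _ (hBuv a ha).2.1⟩)
    (fun a ha => ⟨(hBuv a ha).2.2.1.1, (hBuv a ha).2.2.1.2.1, hCE a _ (hBuv a ha).2.2.1,
      hCEfree a ((hBmem a).1 ha).1 _ (hBuv a ha).2.2.1⟩)
    (fun a ha => (hBuv a ha).1)
    (fun a ha b hb hab => by
      have ha' := ((hBmem a).1 ha).1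
      have hb' := ((hBmem b).1 hb).1
      have key : ∀ p q, CherryEdge φ f col c₁ A T X Y Z a p →
          CherryEdge φ f col c₁ A T X Y Z b q → p ≠ q := by
        rintro p q hp hq rfl
        exact hab (hCEv b hb' p hq a ha' (X a) (Or.inl rfl) (hCE a p hp)).1
      exact ⟨key _ _ (hBuv a ha).2.1 (hBuv b hb).2.1, key _ _ (hBuv a ha).2.1 (hBuv b hb).2.2.1,
        key _ _ (hBuv a ha).2.2.1 (hBuv b hb).2.1,
        key _ _ (hBuv a ha).2.2.1 (hBuv b hb).2.2.1⟩)
  -- the letters of the base class at the windows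
  have hatY : ∀ a ∈ A', ∀ e ∈ T, ∀ t, lt g σ e t ∈ L₃ → Y a ∈ ends (fun j => φ (f j)) e →
      t = m a := by
    intro a ha e he t h1 h2
    rcases (hL₃m e t).1 h1 with h3 | ⟨b, hb, h3⟩
    · exact hm a ha e he t h3 h2
    · exfalso
      have hb' := ((hBmem b).1 hb).1
      have h4 : CherryEdge φ f col c₁ A T X Y Z b e := by
        rcases h3 with ⟨rfl, -⟩ | ⟨rfl, -⟩
        · exact (hBuv b hb).2.1
        · exact (hBuv b hb).2.2.1
      obtain ⟨rfl, h5⟩ := hCEv b hb' e h4 a ha (Y a) (Or.inr (Or.inl rfl)) h2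
      exact (sk.ne _ (hA'A _ ha).1).1 h5.symm
  have hatZ : ∀ a ∈ A', ∀ e ∈ T, ∀ t, lt g σ e t ∈ L₃ → Z a ∈ ends (fun j => φ (f j)) e →
      t = tz a := by
    intro a ha e he t h1 h2
    rcases (hL₃m e t).1 h1 with h3 | ⟨b, hb, h3⟩
    · exact htz a ha e he t h3 h2
    · exfalso
      have hb' := ((hBmem b).1 hb).1
      have h4 : CherryEdge φ f col c₁ A T X Y Z b e := by
        rcases h3 with ⟨rfl, -⟩ | ⟨rfl, -⟩
        · exact (hBuv b hb).2.1
        · exact (hBuv b hb).2.2.1
      obtain ⟨rfl, h5⟩ := hCEv b hb' e h4 a ha (Z a) (Or.inr (Or.inr rfl)) h2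
      exact (sk.ne _ (hA'A _ ha).1).2.2 h5.symm
  have hatX : ∀ a ∈ A', ∀ e ∈ T, ∀ t, lt g σ e t ∈ L₃ → X a ∈ ends (fun j => φ (f j)) e →
      t = s a ∨ t = s a + 1 := by
    intro a ha e he t h1 h2
    have hec := hLcls hL₃ e t h1
    have haB : a ∈ B := (hBmem a).2 ⟨ha, e, he, hec, h2⟩
    rcases (hL₃m e t).1 h1 with h3 | ⟨b, hb, h3⟩
    · exfalso
      rcases (hBuv a haB).2.2.2 e he hec h2 with h4 | h4
      · rw [h4] at h3
        exact hCEfree a ha _ (hBuv a haB).2.1 t h3
      · rw [h4] at h3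
        exact hCEfree a ha _ (hBuv a haB).2.2.1 t h3
    · have hb' := ((hBmem b).1 hb).1
      have h4 : CherryEdge φ f col c₁ A T X Y Z b e := by
        rcases h3 with ⟨rfl, -⟩ | ⟨rfl, -⟩
        · exact (hBuv b hb).2.1
        · exact (hBuv b hb).2.2.1
      obtain ⟨h5, -⟩ := hCEv b hb' e h4 a ha (X a) (Or.inl rfl) h2
      subst h5
      rcases h3 with ⟨-, rfl⟩ | ⟨-, rfl⟩
      · rcases hhv a hb with ⟨h6, -⟩ | ⟨h6, -⟩
        · exact Or.inl h6
        · exact Or.inr h6
      · rcases hhv a hb with ⟨-, h6⟩ | ⟨-, h6⟩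
        · exact Or.inr h6
        · exact Or.inl h6
  -- the oriented windows
  let o' : J → Prop := fun a => a = c₁ ∨ o a
  let P : J → Q := fun a => if o' a then X a else Z a
  let R : J → Q := fun a => if o' a then Z a else X a
  let e₀ : J → Q × J := fun a => if o' a then w₁ a else w₂ a
  let e₁ : J → Q × J := fun a => if o' a then w₂ a else w₁ a
  let m' : J → ZMod (addOrderOf g) := fun a => if a = c₁ then 0 else m a
  have hm' : ∀ a ∈ A', m' a = m a := fun a ha => if_neg (hA'A a ha).2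
  have hPR : ∀ a, (P a = X a ∧ R a = Z a ∧ e₀ a = w₁ a ∧ e₁ a = w₂ a ∧ o' a) ∨
      (P a = Z a ∧ R a = X a ∧ e₀ a = w₂ a ∧ e₁ a = w₁ a ∧ ¬ o' a) := by
    intro a
    by_cases h1 : o' a
    · left
      simp only [P, R, e₀, e₁, if_pos h1]
      exact ⟨trivial, trivial, trivial, trivial, h1⟩
    · right
      simp only [P, R, e₀, e₁, if_neg h1]
      exact ⟨trivial, trivial, trivial, trivial, h1⟩
  have hWin : ∀ a q, Win P Y R a q ↔ Win X Y Z a q := by
    intro a q
    unfold Win
    rcases hPR a with ⟨h1, h2, -⟩ | ⟨h1, h2, -⟩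
    · rw [h1, h2]
    · rw [h1, h2]
      tauto
  have he₀ : ∀ a ∈ A, e₀ a ∈ T ∧ ends (fun j => φ (f j)) (e₀ a) = s(P a, Y a) := by
    intro a ha
    rcases hPR a with ⟨h1, h2, h3, h4, -⟩ | ⟨h1, h2, h3, h4, -⟩
    · rw [h1, h3]
      exact ⟨sk.w₁T a ha, sk.w₁e a ha⟩
    · rw [h1, h3]
      exact ⟨sk.w₂T a ha, sk.w₂e a ha⟩
  have he₁ : ∀ a ∈ A, e₁ a ∈ T ∧ ends (fun j => φ (f j)) (e₁ a) = s(R a, Y a) := by
    intro a ha
    rcases hPR a with ⟨h1, h2, h3, h4, -⟩ | ⟨h1, h2, h3, h4, -⟩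
    · rw [h2, h4]
      exact ⟨sk.w₂T a ha, sk.w₂e a ha⟩
    · rw [h2, h4]
      exact ⟨sk.w₁T a ha, sk.w₁e a ha⟩
  have hec₀ : ∀ a ∈ A, col (e₀ a).1 (e₀ a).2 = a := by
    intro a ha
    rcases hPR a with ⟨h1, h2, h3, h4, -⟩ | ⟨h1, h2, h3, h4, -⟩
    · rw [h3]
      exact sk.w₁c a ha
    · rw [h3]
      exact sk.w₂c a ha
  have hec₁ : ∀ a ∈ A, col (e₁ a).1 (e₁ a).2 = a := by
    intro a ha
    rcases hPR a with ⟨h1, h2, h3, h4, -⟩ | ⟨h1, h2, h3, h4, -⟩
    · rw [h4]
      exact sk.w₂c a ha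
    · rw [h4]
      exact sk.w₁c a ha
  have he01 : ∀ a ∈ A, e₀ a ≠ e₁ a := by
    intro a ha
    rcases hPR a with ⟨h1, h2, h3, h4, -⟩ | ⟨h1, h2, h3, h4, -⟩
    · rw [h3, h4]
      exact hw12 a ha
    · rw [h3, h4]
      exact (hw12 a ha).symm
  have hne : ∀ a ∈ A, P a ≠ Y a ∧ R a ≠ Y a ∧ P a ≠ R a := by
    intro a ha
    obtain ⟨n1, n2, n3⟩ := sk.ne a ha
    rcases hPR a with ⟨h1, h2, -⟩ | ⟨h1, h2, -⟩
    · rw [h1, h2]
      exact ⟨n1, n2, n3⟩
    · rw [h1, h2]
      exact ⟨n2, n1, n3.symm⟩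
  have hdis : ∀ a ∈ A, ∀ b ∈ A, a ≠ b → ∀ v, Win P Y R a v → ¬ Win P Y R b v := by
    intro a ha b hb hab v h1 h2
    exact sk.disj a ha b hb hab v ((hWin a v).1 h1) ((hWin b v).1 h2)
  have hW0 : ∀ a ∈ A, ∀ q, q ∈ ends (fun j => φ (f j)) (e₀ a) → q = P a ∨ q = Y a := by
    intro a ha q hq
    rwa [(he₀ a ha).2, Sym2.mem_iff] at hq
  have hW1 : ∀ a ∈ A, ∀ q, q ∈ ends (fun j => φ (f j)) (e₁ a) → q = R a ∨ q = Y a := by
    intro a ha q hq
    rwa [(he₁ a ha).2, Sym2.mem_iff] at hq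
  -- offsets
  have hoff : ∀ (x mm : ZMod (addOrderOf g)) (k : ℕ), k < addOrderOf g →
      x = mm + (k : ZMod (addOrderOf g)) → (x - mm).val = k :=
    fun x mm k hk hx => nat_off hNpos x mm k hk hx
  -- the base letters avoid the words
  have hcY : ∀ a ∈ A', ∀ e ∈ T, ∀ t, lt g σ e t ∈ L₃ → Y a ∈ ends (fun j => φ (f j)) e →
      ∀ k < G a - 1, t ≠ m' a + ((k + 1 : ℕ) : ZMod (addOrderOf g)) := by
    intro a ha e he t h1 h2 k hk h3
    rw [hm' a ha] at h3
    have h4 := hatY a ha e he t h1 h2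
    have h5 := hoff t (m a) (k + 1) (by have := hGN a; omega) h3
    rw [h4, sub_self, ZMod.val_zero] at h5
    omega
  have hcX : ∀ a ∈ A', ∀ e ∈ T, ∀ t, lt g σ e t ∈ L₃ → X a ∈ ends (fun j => φ (f j)) e →
      ∀ k < G a - 1, (o' a → k % 2 = 0) → (¬ o' a → k % 2 = 1) →
      t ≠ m' a + ((k + 1 : ℕ) : ZMod (addOrderOf g)) := by
    intro a ha e he t h1 h2 k hk ho1 ho2 h3
    rw [hm' a ha] at h3
    have hGa := hGN a
    have h4 := hatX a ha e he t h1 h2
    by_cases hoa : o' a
    · have hoa' : o a := by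
        rcases hoa with h5 | h5
        · exact absurd h5 (hA'A a ha).2
        · exact h5
      have hs : s a = m a - 1 := if_pos hoa'
      rcases h4 with h4 | h4
      · -- `t = m - 1`
        have h5 : m a + ((k + 2 : ℕ) : ZMod (addOrderOf g)) =
            m a + ((addOrderOf g : ℕ) : ZMod (addOrderOf g)) := by
          rw [show ((addOrderOf g : ℕ) : ZMod (addOrderOf g)) = 0 from CharP.cast_eq_zero _ _,
            add_zero]
          have h6 : m a - 1 = m a + ((k + 1 : ℕ) : ZMod (addOrderOf g)) := by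
            rw [← hs, ← h4, h3]
          have h7 : m a = m a + ((k + 1 : ℕ) : ZMod (addOrderOf g)) + 1 := by
            rw [← h6]
            ring
          rw [show ((k + 2 : ℕ) : ZMod (addOrderOf g)) =
            ((k + 1 : ℕ) : ZMod (addOrderOf g)) + 1 by push_cast; ring, ← add_assoc, ← h7]
        have h6 := off_inj (by omega) (by omega) (by omega) le_rfl h5
        have h7 := ho1 hoa
        omega
      · have h5 := hoff t (m a) (k + 1) (by omega) h3
        rw [h4, hs, sub_add_cancel, sub_self, ZMod.val_zero] at h5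
        omega
    · have hoa' : ¬ o a := fun h5 => hoa (Or.inr h5)
      have hs : s a = m a := if_neg hoa'
      have h5 := hoff t (m a) (k + 1) (by omega) h3
      rcases h4 with h4 | h4
      · rw [h4, hs, sub_self, ZMod.val_zero] at h5
        omega
      · rw [h4, hs, add_sub_cancel_left] at h5
        have h6 := ho2 hoa
        have h7 : (1 : ZMod (addOrderOf g)).val = 1 := ZMod.val_one'' hN1
        rw [h7] at h5
        omega
  have hcZ : ∀ a ∈ A', ∀ e ∈ T, ∀ t, lt g σ e t ∈ L₃ → Z a ∈ ends (fun j => φ (f j)) e →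
      ∀ k < G a - 1, (o' a → k % 2 = 1) → (¬ o' a → k % 2 = 0) →
      t ≠ m' a + ((k + 1 : ℕ) : ZMod (addOrderOf g)) := by
    intro a ha e he t h1 h2 k hk ho1 ho2 h3
    rw [hm' a ha] at h3
    have hGa := hGN a
    have h4 := hatZ a ha e he t h1 h2
    have h5 := hoff t (m a) (k + 1) (by omega) h3
    rw [h4] at h5
    by_cases hoa : o' a
    · have hoa' : (tz a - m a).val % 2 = 1 := by
        rcases hoa with h5 | h5
        · exact absurd h5 (hA'A a ha).2
        · exact h5
      have h6 := ho1 hoa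
      omega
    · have hoa' : ¬ (tz a - m a).val % 2 = 1 := fun h5 => hoa (Or.inr h5)
      have h6 := ho2 hoa
      omega
  -- all letters
  set Wd : J → Finset (K × J) := fun a => word g σ (e₀ a) (e₁ a) (m' a) (G a - 1) with hWd
  have hWcompat : ∀ a ∈ A, Compat g f base (Wd a) := by
    intro a ha
    have := hGN a
    have := hG3 a ha
    exact word_compat hC hT hg hf (he₀ a ha).1 (he₁ a ha).1 (he01 a ha) _ (by omega)
  set L : Finset (K × J) := L₃ ∪ A'.biUnion Wd with hLd
  have hLmem : ∀ p, p ∈ L ↔ p ∈ L₃ ∨ ∃ a ∈ A', p ∈ Wd a := by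
    intro p
    rw [hLd, mem_union, mem_biUnion]
  have hLT : InT g σ T L := by
    intro p hp
    rcases (hLmem p).1 hp with h1 | ⟨a, ha, h1⟩
    · exact hL₃.inT p h1
    · exact word_inT (he₀ a (hA'A a ha).1).1 (he₁ a (hA'A a ha).1).1 _ _ p h1
  have hWcls : ∀ a ∈ A, ∀ e t, lt g σ e t ∈ Wd a → col e.1 e.2 = a := by
    intro a ha e t h1
    obtain ⟨k, -, hke, -⟩ := (mem_word hC).1 h1
    split_ifs at hke
    · rw [hke]
      exact hec₀ a ha
    · rw [hke]
      exact hec₁ a ha
  have hWwin : ∀ a ∈ A, ∀ e t, lt g σ e t ∈ Wd a → ∀ q ∈ ends (fun j => φ (f j)) e,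
      Win X Y Z a q := by
    intro a ha e t h1 q hq
    rw [← hWin]
    obtain ⟨k, -, hke, -⟩ := (mem_word hC).1 h1
    split_ifs at hke
    · rw [hke] at hq
      rcases hW0 a ha q hq with h2 | h2
      · exact Or.inl h2
      · exact Or.inr (Or.inl h2)
    · rw [hke] at hq
      rcases hW1 a ha q hq with h2 | h2
      · exact Or.inr (Or.inr h2)
      · exact Or.inr (Or.inl h2)
  -- base letters against words
  have hLW : ∀ a ∈ A', ∀ e ∈ T, ∀ e' ∈ T, ∀ t, lt g σ e t ∈ L₃ → lt g σ e' t ∈ Wd a →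
      ∀ q, q ∈ ends (fun j => φ (f j)) e → q ∉ ends (fun j => φ (f j)) e' := by
    intro a ha e he e' he' t h1 h2 q hq hq'
    have haA := (hA'A a ha).1
    obtain ⟨k, hk, hke, hkt⟩ := (mem_word hC).1 h2
    rw [hke] at hq'
    by_cases hp : k % 2 = 0
    · rw [if_pos hp] at hq'
      rcases hW0 a haA q hq' with rfl | rfl
      · rcases hPR a with ⟨h3, -, -, -, h4⟩ | ⟨h3, -, -, -, h4⟩
        · rw [h3] at hq
          exact hcX a ha e he t h1 hq k hk (fun _ => hp) (fun h5 => absurd h4 h5) hkt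
        · rw [h3] at hq
          exact hcZ a ha e he t h1 hq k hk (fun h5 => absurd h5 h4) (fun _ => hp) hkt
      · exact hcY a ha e he t h1 hq k hk hkt
    · rw [if_neg hp] at hq'
      have hp' : k % 2 = 1 := by omega
      rcases hW1 a haA q hq' with rfl | rfl
      · rcases hPR a with ⟨-, h3, -, -, h4⟩ | ⟨-, h3, -, -, h4⟩
        · rw [h3] at hq
          exact hcZ a ha e he t h1 hq k hk (fun _ => hp') (fun h5 => absurd h4 h5) hkt
        · rw [h3] at hq
          exact hcX a ha e he t h1 hq k hk (fun h5 => absurd h5 h4) (fun _ => hp') hkt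
      · exact hcY a ha e he t h1 hq k hk hkt
  have hcompat : Compat g f base L := by
    refine compat_of hC hT hg hf hLT ?_ ?_
    · intro e he t h1 h2
      rcases (hLmem _).1 h1 with h3 | ⟨a, ha, h3⟩
      · rcases (hLmem _).1 h2 with h4 | ⟨b, hb, h4⟩
        · exact compat_hor hL₃.compat h3 h4
        · have h5 := hLcls hL₃ e t h3
          rw [hWcls b (hA'A b hb).1 e _ h4] at h5
          exact (hA'A b hb).2 h5
      · rcases (hLmem _).1 h2 with h4 | ⟨b, hb, h4⟩
        · have h5 := hLcls hL₃ e _ h4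
          rw [hWcls a (hA'A a ha).1 e _ h3] at h5
          exact (hA'A a ha).2 h5
        · have h5 := hWcls a (hA'A a ha).1 e _ h3
          rw [hWcls b (hA'A b hb).1 e _ h4] at h5
          subst h5
          exact compat_hor (hWcompat b (hA'A b hb).1) h3 h4
    · intro e he e' he' t h1 h2 hee q hq hq'
      rcases (hLmem _).1 h1 with h3 | ⟨a, ha, h3⟩
      · rcases (hLmem _).1 h2 with h4 | ⟨b, hb, h4⟩
        · exact compat_tail hC hT hL₃.compat he he' h3 h4 hee hq hq'
        · exact hLW b hb e he e' he' t h3 h4 q hq hq'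
      · rcases (hLmem _).1 h2 with h4 | ⟨b, hb, h4⟩
        · exact hLW a ha e' he' e he t h4 h3 q hq' hq
        · by_cases hab : a = b
          · subst hab
            exact compat_tail hC hT (hWcompat a (hA'A a ha).1) he he' h3 h4 hee hq hq'
          · exact sk.disj a (hA'A a ha).1 b (hA'A b hb).1 hab q
              (hWwin a (hA'A a ha).1 e t h3 q hq) (hWwin b (hA'A b hb).1 e' t h4 q hq')
  -- the letters of a class
  have hclsL : ∀ p ∈ L, ∃ e ∈ T, ∃ t, p = lt g σ e t ∧ base p.1 p.2 = col e.1 e.2 := by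
    intro p hp
    obtain ⟨e, he, t, rfl⟩ := hLT p hp
    refine ⟨e, he, t, rfl, ?_⟩
    simp only [hbase]
    unfold lt
    simp only
    rw [hC.phi_pt]
  have hbl : ∀ e t, base (lt g σ e t).1 (lt g σ e t).2 = col e.1 e.2 := by
    intro e t
    simp only [hbase]
    unfold lt
    simp only
    rw [hC.phi_pt]
  -- membership for the base class and the other classes
  have hm1 : ∀ e t, col e.1 e.2 = c₁ → (lt g σ e t ∈ L ↔ lt g σ e t ∈ L₃) := by
    intro e t he
    rw [hLmem]
    constructor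
    · rintro (h1 | ⟨a, ha, h1⟩)
      · exact h1
      · exfalso
        have h2 := hWcls a (hA'A a ha).1 e t h1
        rw [he] at h2
        exact (hA'A a ha).2 h2.symm
    · exact Or.inl
  have hm2 : ∀ a ∈ A', ∀ e t, col e.1 e.2 = a → (lt g σ e t ∈ L ↔ lt g σ e t ∈ Wd a) := by
    intro a ha e t he
    rw [hLmem]
    constructor
    · rintro (h1 | ⟨b, hb, h1⟩)
      · exfalso
        have h2 := hLcls hL₃ e t h1
        rw [he] at h2
        exact (hA'A a ha).2 h2
      · have h2 := hWcls b (hA'A b hb).1 e t h1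
        rw [he] at h2
        subst h2
        exact h1
    · intro h1
      exact Or.inr ⟨a, ha, h1⟩
  -- conclusion
  refine eDec_of_letters (L := L) hd hcompat ?_ ?_
  · intro C hCG
    refine gConn hC hT hd hcompat hLT (A := A) (P := P) (Y := Y) (R := R) (e₀ := e₀) (e₁ := e₁)
      (m := m') (G := G) (fun a ha => ⟨hGodd a, hG3 a ha, hGN a⟩) he₀ he₁ hne hdis ?_ ?_ ?_ hCG
    · intro e he
      by_cases hwe : ∃ a ∈ A, e = w₁ a ∨ e = w₂ a
      · right
        obtain ⟨a, ha, h1⟩ := hwe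
        refine ⟨a, ha, ?_⟩
        rcases hPR a with ⟨-, -, h3, h4, -⟩ | ⟨-, -, h3, h4, -⟩
        · rw [h3, h4]
          exact h1
        · rw [h3, h4]
          exact h1.symm
      · left
        have hec : col e.1 e.2 = c₁ := by
          rcases sk.cls e he with h1 | h1
          · exact h1
          · exact absurd h1 hwe
        have hw1 : ¬ (c₁ ∈ A ∧ (e = w₁ c₁ ∨ e = w₂ c₁)) := fun h1 =>
          hwe ⟨c₁, h1.1, h1.2⟩
        by_cases hX : ∃ a ∈ A', X a ∈ ends (fun j => φ (f j)) e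
        · obtain ⟨a, ha, hXa⟩ := hX
          have haB : a ∈ B := (hBmem a).2 ⟨ha, e, he, hec, hXa⟩
          have hnL₁ : ∀ t, lt g σ e t ∉ L₁ := by
            intro t h1
            rcases (hL₁m e t).1 h1 with h2 | ⟨h2, -⟩
            · exact hw1 (hL₀mem e t h2)
            · exact ((hSmem e).1 h2).2.2.2 a ha hXa
          have hb : ∀ b ∈ B, (e = u b ∨ e = v b) → b = a := by
            intro b hb h1
            have h2 : CherryEdge φ f col c₁ A T X Y Z b e := by
              rcases h1 with rfl | rfl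
              · exact (hBuv b hb).2.1
              · exact (hBuv b hb).2.2.1
            exact (hCEv b ((hBmem b).1 hb).1 e h2 a ha (X a) (Or.inl rfl) hXa).1.symm
          rcases (hBuv a haB).2.2.2 e he hec hXa with h4 | h4
          · refine ⟨hu a, fun t => ?_⟩
            rw [hm1 e t hec, hL₃m]
            constructor
            · rintro (h5 | ⟨b, hb', ⟨h5, h6⟩ | ⟨h5, h6⟩⟩)
              · exact absurd h5 (hnL₁ t)
              · rw [hb b hb' (Or.inl h5)] at h6
                exact h6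
              · have h7 := hb b hb' (Or.inr h5)
                subst h7
                exact absurd (h4.symm.trans h5) (hBuv b hb').1
            · intro h5
              exact Or.inr ⟨a, haB, Or.inl ⟨h4, h5⟩⟩
          · refine ⟨hv a, fun t => ?_⟩
            rw [hm1 e t hec, hL₃m]
            constructor
            · rintro (h5 | ⟨b, hb', ⟨h5, h6⟩ | ⟨h5, h6⟩⟩)
              · exact absurd h5 (hnL₁ t)
              · have h7 := hb b hb' (Or.inl h5)
                subst h7
                exact absurd (h5.symm.trans h4) (hBuv b hb').1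
              · rw [hb b hb' (Or.inr h5)] at h6
                exact h6
            · intro h5
              exact Or.inr ⟨a, haB, Or.inr ⟨h4, h5⟩⟩
        · push Not at hX
          have heS : e ∈ S := (hSmem e).2 ⟨he, hec, hw1, hX⟩
          refine ⟨ht e, fun t => ?_⟩
          rw [hm1 e t hec, hL₃m, hL₁m]
          constructor
          · rintro ((h5 | ⟨-, h5⟩) | ⟨b, hb', h5⟩)
            · exact absurd (hL₀mem e t h5) hw1
            · exact h5
            · exfalso
              have h2 : CherryEdge φ f col c₁ A T X Y Z b e := by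
                rcases h5 with ⟨rfl, -⟩ | ⟨rfl, -⟩
                · exact (hBuv b hb').2.1
                · exact (hBuv b hb').2.2.1
              exact hX b ((hBmem b).1 hb').1 (hCE b e h2)
          · intro h5
            exact Or.inl (Or.inr ⟨heS, h5⟩)
    · -- letters on `e₀ a`
      intro a ha t
      have hkey : lt g σ (e₀ a) t ∈ L ↔ lt g σ (e₀ a) t ∈ Wd a := by
        by_cases hac : a = c₁
        · subst hac
          have ho : o' a := Or.inl rfl
          have he0 : e₀ a = w₁ a := if_pos ho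
          have he1 : e₁ a = w₂ a := if_pos ho
          have hmm : m' a = 0 := if_pos rfl
          rw [hm1 _ _ (hec₀ a ha), hL₃m, hL₁m]
          have hL₀e : L₀ = Wd a := by
            rw [hL₀d, if_pos ha]
            simp only [hWd]
            rw [he0, he1, hmm]
          rw [hL₀e]
          constructor
          · rintro ((h5 | ⟨h5, -⟩) | ⟨b, hb', h5⟩)
            · exact h5
            · exact absurd ⟨ha, Or.inl he0⟩ ((hSmem _).1 h5).2.2.1
            · exfalso
              have h2 : CherryEdge φ f col a A T X Y Z b (e₀ a) := by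
                rcases h5 with ⟨h6, -⟩ | ⟨h6, -⟩
                · rw [h6]
                  exact (hBuv b hb').2.1
                · rw [h6]
                  exact (hBuv b hb').2.2.1
              exact hCEw b ((hBmem b).1 hb').1 _ h2 ⟨ha, Or.inl he0⟩
          · intro h5
            exact Or.inl (Or.inl h5)
        · exact hm2 a (mem_erase.2 ⟨hac, ha⟩) _ _ (hec₀ a ha)
      rw [hkey]
      simp only [hWd]
      rw [mem_word hC]
      constructor
      · rintro ⟨k, hk, hke, hkt⟩
        refine ⟨k, hk, ?_, hkt⟩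
        by_contra hp
        rw [if_neg hp] at hke
        exact he01 a ha hke
      · rintro ⟨k, hk, hp, hkt⟩
        exact ⟨k, hk, by rw [if_pos hp], hkt⟩
    · -- letters on `e₁ a`
      intro a ha t
      have hkey : lt g σ (e₁ a) t ∈ L ↔ lt g σ (e₁ a) t ∈ Wd a := by
        by_cases hac : a = c₁
        · subst hac
          have ho : o' a := Or.inl rfl
          have he0 : e₀ a = w₁ a := if_pos ho
          have he1 : e₁ a = w₂ a := if_pos ho
          have hmm : m' a = 0 := if_pos rfl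
          rw [hm1 _ _ (hec₁ a ha), hL₃m, hL₁m]
          have hL₀e : L₀ = Wd a := by
            rw [hL₀d, if_pos ha]
            simp only [hWd]
            rw [he0, he1, hmm]
          rw [hL₀e]
          constructor
          · rintro ((h5 | ⟨h5, -⟩) | ⟨b, hb', h5⟩)
            · exact h5
            · exact absurd ⟨ha, Or.inr he1⟩ ((hSmem _).1 h5).2.2.1
            · exfalso
              have h2 : CherryEdge φ f col a A T X Y Z b (e₁ a) := by
                rcases h5 with ⟨h6, -⟩ | ⟨h6, -⟩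
                · rw [h6]
                  exact (hBuv b hb').2.1
                · rw [h6]
                  exact (hBuv b hb').2.2.1
              exact hCEw b ((hBmem b).1 hb').1 _ h2 ⟨ha, Or.inr he1⟩
          · intro h5
            exact Or.inl (Or.inl h5)
        · exact hm2 a (mem_erase.2 ⟨hac, ha⟩) _ _ (hec₁ a ha)
      rw [hkey]
      simp only [hWd]
      rw [mem_word hC]
      constructor
      · rintro ⟨k, hk, hke, hkt⟩
        refine ⟨k, hk, ?_, hkt⟩
        by_contra hp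
        rw [if_pos (by omega)] at hke
        exact he01 a ha hke.symm
      · rintro ⟨k, hk, hp, hkt⟩
        exact ⟨k, hk, by rw [if_neg (by omega)], hkt⟩
  · intro c C hCV
    by_cases hc1 : c = c₁
    · subst hc1
      refine hL₃.vc C ?_
      refine (constV_congr hcompat hL₃.compat ?_).1 hCV
      intro p hp
      constructor
      · intro h1
        obtain ⟨e, he, t, rfl, -⟩ := hclsL p h1
        rw [hbl] at hp
        exact (hm1 e t hp).1 h1
      · intro h1
        exact (hLmem p).2 (Or.inl h1)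
    · by_cases hcA : c ∈ A
      · have hcA' : c ∈ A' := mem_erase.2 ⟨hc1, hcA⟩
        have h1 : VC g f base c (Wd c) := by
          refine word_vc hC hT hg hf hd (hl c) (hGN c) (he₀ c hcA).1 (he₁ c hcA).1 (he01 c hcA)
            (hec₀ c hcA) (hec₁ c hcA) (Y := Y c) ?_ ?_ _
          · rw [(he₀ c hcA).2]
            simp
          · rw [(he₁ c hcA).2]
            simp
        refine h1 C ?_
        refine (constV_congr hcompat (hWcompat c hcA) ?_).1 hCV
        intro p hp
        constructor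
        · intro h2
          obtain ⟨e, he, t, rfl, -⟩ := hclsL p h2
          rw [hbl] at hp
          exact (hm2 c hcA' e t hp).1 h2
        · intro h2
          exact (hLmem p).2 (Or.inr ⟨c, hcA', h2⟩)
      · refine hvcA c hcA C ?_
        intro x j hj
        have hno : ∀ p ∈ L, base p.1 p.2 ≠ c := by
          intro p hp h1
          rcases (hLmem p).1 hp with h2 | ⟨a, ha, h2⟩
          · have h3 : base p.1 p.2 = c₁ := hL₃.cls p h2
            rw [h3] at h1
            exact hc1 h1.symm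
          · obtain ⟨e, he, t, rfl, -⟩ := hclsL p hp
            rw [hbl, hWcls a (hA'A a ha).1 e t h2] at h1
            subst h1
            exact hcA (hA'A a ha).1
        refine hCV.1 x j hj (fun h1 => hno _ h1 hj) (fun h1 => hno _ h1 ?_)
        simp only [hbase] at hj ⊢
        rw [map_sub, hC.phi_g, sub_zero]
        exact hj

end Pool.Agent.Helper43.TD
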