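import Pool.Agent.Helper43.TD.Skel
import Pool.Agent.Helper43.TD.V1

/-!
# Coordinates `(q, t) ↦ σ q + t g` and words of letters
-/

set_option autoImplicit false
set_option linter.unusedSectionVars false

namespace Pool.Agent.Helper43.TD

open Finset Pool.Agent.Helper74.BL Pool.Agent.Helper4.BL

section Io

variable {K : Type*} [AddCommGroup K]

/-- the multiples of `g`, indexed by residues -/
noncomputable def io (g : K) : ZMod (addOrderOf g) →+ K :=
  ZMod.lift (addOrderOf g) ⟨zmultiplesHom K g, by
    simp [zmultiplesHom_apply, addOrderOf_nsmul_eq_zero]⟩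

theorem io_int (g : K) (m : ℤ) : io g (m : ZMod (addOrderOf g)) = m • g := by
  unfold io
  rw [ZMod.lift_coe]
  rfl

theorem io_nat (g : K) (m : ℕ) : io g (m : ZMod (addOrderOf g)) = m • g := by
  have := io_int g (m : ℤ)
  rw [Int.cast_natCast, natCast_zsmul] at this
  exact this

@[simp] theorem io_one (g : K) : io g 1 = g := by
  have := io_nat g 1
  rwa [Nat.cast_one, one_smul] at this

theorem io_inj (g : K) : Function.Injective (io g) := by
  unfold io
  rw [ZMod.lift_injective]
  intro m hm
  simp only [zmultiplesHom_apply] at hm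
  rw [ZMod.intCast_zmod_eq_zero_iff_dvd]
  exact addOrderOf_dvd_iff_zsmul_eq_zero.2 hm

theorem mem_zmultiples_iff_io {g x : K} : x ∈ AddSubgroup.zmultiples g ↔ ∃ t, x = io g t := by
  rw [AddSubgroup.mem_zmultiples_iff]
  constructor
  · rintro ⟨k, rfl⟩
    exact ⟨k, (io_int g k).symm⟩
  · rintro ⟨t, rfl⟩
    obtain ⟨k, rfl⟩ := ZMod.intCast_surjective t
    exact ⟨k, (io_int g k).symm⟩

end Io

section Pts

variable {K Q : Type*} [AddCommGroup K] [AddCommGroup Q] {φ : K →+ Q} {g : K} {σ : Q → K}

/-- the data of the coordinates -/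
structure Crd (φ : K →+ Q) (g : K) (σ : Q → K) : Prop where
  ker : ∀ x, φ x = 0 ↔ x ∈ AddSubgroup.zmultiples g
  sec : ∀ q, φ (σ q) = q

theorem Crd.phi_io (h : Crd φ g σ) (t : ZMod (addOrderOf g)) : φ (io g t) = 0 :=
  (h.ker _).2 (mem_zmultiples_iff_io.2 ⟨t, rfl⟩)

theorem Crd.phi_g (h : Crd φ g σ) : φ g = 0 := (h.ker _).2 (AddSubgroup.mem_zmultiples g)

theorem Crd.phi_pt (h : Crd φ g σ) (q : Q) (t : ZMod (addOrderOf g)) : φ (σ q + io g t) = q := by
  rw [map_add, h.phi_io, add_zero, h.sec]

theorem Crd.pt_inj (h : Crd φ g σ) {q q' : Q} {t t' : ZMod (addOrderOf g)} :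
    σ q + io g t = σ q' + io g t' ↔ q = q' ∧ t = t' := by
  constructor
  · intro he
    have h1 := congrArg φ he
    rw [h.phi_pt, h.phi_pt] at h1
    subst h1
    exact ⟨rfl, io_inj g (add_left_cancel he)⟩
  · rintro ⟨rfl, rfl⟩
    rfl

theorem Crd.exists_pt (h : Crd φ g σ) (x : K) : ∃ t, x = σ (φ x) + io g t := by
  have h1 : φ (x - σ (φ x)) = 0 := by rw [map_sub, h.sec, sub_self]
  obtain ⟨t, ht⟩ := mem_zmultiples_iff_io.1 ((h.ker _).1 h1)
  exact ⟨t, by rw [← ht]; abel⟩

end Pts

section LevelWord

variable {K : Type*} [AddCommGroup K] [Fintype K] [DecidableEq K] {J : Type*} [Fintype J]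
  [DecidableEq J] {g : K} {f : J → K} {base : K → J → J}

/-- a word of `n` letters of the class `c` in consecutive levels -/
theorem level_word_aux (hd : Deg2 f base) {c : J} {G : ℕ} {l : K → ZMod G}
    (hl : Level g f base c G l) (w : ℕ → K × J) (s : ZMod G) {n : ℕ} (hn : n + 1 ≤ G)
    (hw : ∀ k, k < n → base (w k).1 (w k).2 = c ∧ l (w k).1 = s + (k : ZMod G))
    (hcomp : Compat g f base ((range n).image w)) {C : K → ZMod 2}
    (hC : ConstV g f base ((range n).image w) c C) :
    (∀ x j, base x j = c → C x = C (x + f j)) ∧ ∀ k < n, C (w k).1 = C ((w k).1 + g) := by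
  induction n with
  | zero =>
    refine ⟨fun x j hj => hC.1 x j hj (by simp) (by simp), fun k hk => absurd hk (Nat.not_lt_zero k)⟩
  | succ n ih =>
    have hins : (range (n + 1)).image w = insert (w n) ((range n).image w) := by
      rw [range_add_one, image_insert]
    rw [hins] at hcomp hC
    have hwn := hw n (Nat.lt_succ_self n)
    have hne : ∀ k, k < n → w k ≠ w n := by
      intro k hk h1
      have h2 := (hw k (by omega)).2
      rw [h1, hwn.2] at h2
      have h3 := add_left_cancel h2
      rw [ZMod.natCast_eq_natCast_iff'] at h3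
      rw [Nat.mod_eq_of_lt (by omega), Nat.mod_eq_of_lt (by omega)] at h3
      omega
    have hnot : w n ∉ (range n).image w := by
      rw [mem_image]
      rintro ⟨k, hk, hk'⟩
      exact hne k (mem_range.1 hk) hk'
    -- the separating function
    let D : K → ZMod 2 := fun x => if ∃ k, k ≤ n ∧ l x = s + (k : ZMod G) then 1 else 0
    have hDl : ∀ x y, l x = l y → D x = D y := by
      intro x y hxy
      simp only [D, hxy]
    have h1 : ∀ k, k ≤ n → ∀ x, l x = s + (k : ZMod G) → D x = 1 := by
      intro k hk x hx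
      simp only [D]
      rw [if_pos ⟨k, hk, hx⟩]
    have h0 : ∀ x, l x = s + ((n + 1 : ℕ) : ZMod G) → D x = 0 := by
      intro x hx
      simp only [D]
      rw [if_neg]
      rintro ⟨k, hk, hk'⟩
      rw [hx] at hk'
      have h3 := add_left_cancel hk'
      rw [ZMod.natCast_eq_natCast_iff'] at h3
      rw [Nat.mod_eq_of_lt (by omega), Nat.mod_eq_of_lt (by omega)] at h3
      omega
    have hedge : ∀ k, k ≤ n → l ((w k).1 + f (w k).2) = s + (k : ZMod G) := by
      intro k hk
      rw [hl.edge _ _ (hw k (by omega)).1, (hw k (by omega)).2]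
    have hD : ConstV g f base ((range n).image w) (base (w n).1 (w n).2) D := by
      rw [hwn.1]
      refine ⟨fun x j hj _ _ => hDl _ _ (hl.edge x j hj).symm, ?_⟩
      intro p hp hpc
      obtain ⟨k, hk, rfl⟩ := mem_image.1 hp
      rw [mem_range] at hk
      constructor
      · rw [h1 k (by omega) _ (hw k (by omega)).2, h1 (k + 1) (by omega) _ (by
          rw [hl.shift, (hw k (by omega)).2]; push_cast; ring)]
      · rw [h1 k (by omega) _ (hedge k (by omega)), h1 (k + 1) (by omega) _ (by
          rw [hl.shift, hedge k (by omega)]; push_cast; ring)]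
    have hsep : D (w n).1 ≠ D ((w n).1 + g) := by
      rw [h1 n le_rfl _ hwn.2, h0 _ (by rw [hl.shift, hwn.2]; push_cast; ring)]
      decide
    rw [← hwn.1] at hC
    obtain ⟨h2, h3⟩ := mergeV hd hcomp hnot hD hsep hC
    rw [hwn.1] at h2
    obtain ⟨h4, h5⟩ := ih (by omega) (fun k hk => hw k (by omega))
      (hcomp.mono (subset_insert _ _)) h2
    refine ⟨h4, fun k hk => ?_⟩
    rcases Nat.lt_succ_iff_lt_or_eq.1 hk with h6 | rfl
    · exact h5 k h6
    · exact h3

/-- a word of `G - 1` letters in consecutive levels connects the class -/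
theorem level_word (hd : Deg2 f base) {c : J} {G : ℕ} {l : K → ZMod G}
    (hl : Level g f base c G l) (w : ℕ → K × J) (s : ZMod G)
    (hw : ∀ k, k < G - 1 → base (w k).1 (w k).2 = c ∧ l (w k).1 = s + (k : ZMod G))
    (hcomp : Compat g f base ((range (G - 1)).image w)) :
    VC g f base c ((range (G - 1)).image w) := by
  intro C hC
  have hG := hl.pos
  obtain ⟨h1, h2⟩ := level_word_aux hd hl w s (by omega) hw hcomp hC
  have h3 := hl.conn C h1
  -- all levels have the same value
  have h4 : ∀ k, k < G → ∀ x, l x = s + (k : ZMod G) → C x = C (w 0).1 ∨ G = 1 := by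
    intro k
    induction k with
    | zero =>
      intro hk x hx
      by_cases hG1 : G = 1
      · exact Or.inr hG1
      · exact Or.inl (h3 _ _ (by rw [hx, (hw 0 (by omega)).2]))
    | succ k ih =>
      intro hk x hx
      left
      have h5 := hw k (by omega)
      rcases ih (by omega) _ h5.2 with h6 | h6
      · rw [← h6, h2 k (by omega)]
        refine h3 _ _ ?_
        rw [hx, hl.shift, h5.2]
        push_cast
        ring
      · omega
  have h5 : ∀ x, ∃ k, k < G ∧ l x = s + (k : ZMod G) := by
    intro x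
    haveI : NeZero G := ⟨by omega⟩
    refine ⟨(l x - s).val, ZMod.val_lt _, ?_⟩
    rw [ZMod.natCast_zmod_val]
    ring
  intro x y
  obtain ⟨i, hi, hx⟩ := h5 x
  obtain ⟨j, hj, hy⟩ := h5 y
  rcases h4 i hi x hx with h6 | h6
  · rcases h4 j hj y hy with h7 | h7
    · rw [h6, h7]
    · subst h7
      exact h3 _ _ (Subsingleton.elim _ _)
  · subst h6
    exact h3 _ _ (Subsingleton.elim _ _)

end LevelWord

section Chain

/-- the chain argument in a window -/
theorem window_chain {α : Type*} {G N : ℕ} (hG : G % 2 = 1) (h3 : 3 ≤ G) (hGN : G ≤ N)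
    (p y r : ℕ → α) (pp : p (N + 1) = p 1) (py : y (N + 1) = y 1) (pr : r (N + 1) = r 1)
    (hp : ∀ k, 1 ≤ k → k ≤ N → ¬ (k % 2 = 1 ∧ k + 1 ≤ G) → p k = p (k + 1))
    (hr : ∀ k, 1 ≤ k → k ≤ N → ¬ (k % 2 = 0 ∧ k + 1 ≤ G) → r k = r (k + 1))
    (hy : ∀ k, 1 ≤ k → k ≤ N → ¬ (k + 1 ≤ G) → y k = y (k + 1))
    (hpy : ∀ k, 1 ≤ k → k + 1 ≤ G → p k = y k)
    (hyr : ∀ k, 2 ≤ k → k ≤ G → y k = r k) :
    ∀ k, 1 ≤ k → k ≤ N → y k = y 1 ∧ p k = y 1 ∧ r k = y 1 := by
  -- long ways
  have hpl : ∀ k, G - 1 ≤ k → k ≤ N + 1 → p k = p (G - 1) := by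
    intro k hk
    induction k, hk using Nat.le_induction with
    | base => intro _; rfl
    | succ k hk ih =>
      intro hk'
      rw [← ih (by omega), hp k (by omega) (by omega) (by omega)]
  have hrl : ∀ k, G ≤ k → k ≤ N + 1 → r k = r G := by
    intro k hk
    induction k, hk using Nat.le_induction with
    | base => intro _; rfl
    | succ k hk ih =>
      intro hk'
      rw [← ih (by omega), hr k (by omega) (by omega) (by omega)]
  have hyl : ∀ k, G ≤ k → k ≤ N + 1 → y k = y G := by
    intro k hk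
    induction k, hk using Nat.le_induction with
    | base => intro _; rfl
    | succ k hk ih =>
      intro hk'
      rw [← ih (by omega), hy k (by omega) (by omega) (by omega)]
  have e1 : y G = y 1 := by rw [← py, hyl (N + 1) (by omega) le_rfl]
  have e2 : r G = r 1 := by rw [← pr, hrl (N + 1) (by omega) le_rfl]
  have e3 : p (G - 1) = p 1 := by rw [← pp, hpl (N + 1) (by omega) le_rfl]
  have e4 : r 1 = r 2 := hr 1 le_rfl (by omega) (by omega)
  have e5 : y 2 = y 1 := by
    rw [hyr 2 le_rfl (by omega), ← e4, ← e2, ← hyr G (by omega) le_rfl, e1]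
  -- the values of `y` in the window
  have hyw : ∀ k, 2 ≤ k → k ≤ G - 1 → y k = y 2 := by
    intro k hk
    induction k, hk using Nat.le_induction with
    | base => intro _; rfl
    | succ k hk ih =>
      intro hk'
      rw [← ih (by omega)]
      by_cases hpar : k % 2 = 0
      · rw [← hpy k (by omega) (by omega), ← hpy (k + 1) (by omega) (by omega)]
        exact (hp k (by omega) (by omega) (by omega)).symm
      · rw [hyr k (by omega) (by omega), hyr (k + 1) (by omega) (by omega)]
        exact (hr k (by omega) (by omega) (by omega)).symm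
  have hyall : ∀ k, 1 ≤ k → k ≤ N + 1 → y k = y 1 := by
    intro k h1 h2
    rcases Nat.lt_or_ge k 2 with h4 | h4
    · rw [show k = 1 by omega]
    · rcases Nat.lt_or_ge k G with h5 | h5
      · rw [hyw k h4 (by omega), e5]
      · rw [hyl k h5 h2, e1]
  intro k h1 h2
  refine ⟨hyall k h1 (by omega), ?_, ?_⟩
  · rcases Nat.lt_or_ge k G with h5 | h5
    · rw [hpy k h1 (by omega), hyall k h1 (by omega)]
    · rw [hpl k (by omega) (by omega), hpy (G - 1) (by omega) (by omega),
        hyall _ (by omega) (by omega)]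
  · rcases Nat.lt_or_ge k 2 with h4 | h4
    · rw [show k = 1 by omega, ← e2, ← hyr G (by omega) le_rfl, e1]
    · rcases Nat.lt_or_ge k G with h5 | h5
      · rw [← hyr k h4 (by omega), hyall k h1 (by omega)]
      · rw [hrl k h5 (by omega), ← hyr G (by omega) le_rfl, e1]

end Chain

section Side

variable {K Q : Type*} [AddCommGroup K] [AddCommGroup Q] [Fintype K] [DecidableEq K] {J : Type*}
  [Fintype J] [DecidableEq J] {φ : K →+ Q} {g : K} {f : J → K} {base : K → J → J}

/-- a letter which is the only one crossing a cut of `Q`: the rungs used by it are constant -/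
theorem single_rung (hd : Deg2 f base) {L : Finset (K × J)} (hL : Compat g f base L)
    (hg : φ g = 0) {l : K × J} (hl : l ∈ L) {S : Q → ZMod 2} (h0 : S (φ l.1) = 0)
    (h1 : S (φ l.1 + φ (f l.2)) = 1)
    (hS : ∀ l' ∈ L, l' ≠ l → S (φ l'.1) = S (φ l'.1 + φ (f l'.2))) {C : K → ZMod 2}
    (hC : ConstG g f L C) :
    C l.1 = C (l.1 + g) ∧ C (l.1 + f l.2) = C (l.1 + f l.2 + g) := by
  classical
  have hev := (Deg2.lcol hd hL).ev none
  have hcol1 : Lcol g f base L l.1 (some l.2) = none := Lcol_some' (Or.inl hl)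
  have hcol2 : Lcol g f base L (l.1 + g) (some l.2) = none :=
    Lcol_some' (Or.inr (by simpa using hl))
  have hgne : l.1 ≠ l.1 + g := fun h => hL.g0 (left_eq_add.1 h)
  have h2 := hev.two (a := (l.1, some l.2)) (b := (l.1 + g, some l.2)) (mem_cls.2 hcol1)
    (mem_cls.2 hcol2) (fun h => hgne (congrArg Prod.fst h)) (C := fun x => C x * S (φ x)) (by
      rintro ⟨x, o⟩ hx
      simp only [mem_sdiff, mem_cls, mem_insert, mem_singleton, not_or, Prod.mk.injEq] at hx
      obtain ⟨hx1, hx2, hx3⟩ := hx
      refine bd_mk_eq_zero.2 ?_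
      have hCx := (constG_iff hL).1 hC x o hx1
      simp only
      cases o with
      | none =>
        rw [lab_none] at hCx ⊢
        rw [hCx, map_add, hg, add_zero]
      | some j =>
        rw [lab_some] at hCx ⊢
        rw [← hCx]
        congr 1
        rw [map_add]
        by_cases h3 : (x, j) ∈ L
        · refine hS _ h3 ?_
          intro h4
          exact hx2 ⟨by rw [← h4], by rw [← h4]⟩
        · by_cases h4 : (x - g, j) ∈ L
          · have h5 := hS _ h4 (by
              intro h6
              refine hx3 ⟨?_, by rw [← h6]⟩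
              rw [← h6]
              simp)
            simp only [map_sub, hg, sub_zero] at h5
            exact h5
          · rw [Lcol_some h3 h4] at hx1
            exact absurd hx1 (by simp))
  simp only [ends, bd_mk, lab_some, map_add, hg, add_zero, h0, h1, mul_zero, mul_one,
    zero_add] at h2
  have h3 := hC.2 l hl
  have h4 : C (l.1 + f l.2) = C (l.1 + f l.2 + g) := by
    rw [h2, add_right_comm]
  exact ⟨by rw [h3.1, h4, add_right_comm, ← h3.2], h4⟩

end Side

end Pool.Agent.Helper43.TD
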