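import Pool.Agent.Helper43.TD.Assembly
import Pool.Agent.Helper43.BO.Odd
import Pool.Agent.Helper18.TD.Final
import Pool.Agent.Helper4.TD.SK

/-!
# The odd case
-/

set_option autoImplicit false

namespace Pool.Agent.Helper43.TD

open Pool.Agent.Helper43.BO Pool.Agent.Helper43.LA

theorem tdOdd : TDOdd :=
  Pool.Agent.Helper18.TD.tdOdd_of_skelStep
    (skelStep Pool.Agent.Helper4.TD.s1K Pool.Agent.Helper4.TD.s2K)

theorem bLemmaOdd : BLemmaOdd := bLemmaOdd_of_TDOdd tdOdd

end Pool.Agent.Helper43.TD
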