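import Pool.Agent.Helper43.TD.Coord

/-!
# The new class is connected
-/

set_option autoImplicit false
set_option linter.unusedSectionVars false

namespace Pool.Agent.Helper43.TD

open Finset Pool.Agent.Helper74.BL Pool.Agent.Helper4.BL

theorem off_inj {N : ℕ} {m : ZMod N} {i j : ℕ} (hi : 1 ≤ i) (hi' : i ≤ N) (hj : 1 ≤ j)
    (hj' : j ≤ N) (h : m + (i : ZMod N) = m + (j : ZMod N)) : i = j := by
  have h1 := add_left_cancel h
  rw [ZMod.natCast_eq_natCast_iff'] at h1
  rcases Nat.lt_or_ge i N with h2 | h2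
  · rw [Nat.mod_eq_of_lt h2] at h1
    rcases Nat.lt_or_ge j N with h3 | h3
    · rwa [Nat.mod_eq_of_lt h3] at h1
    · have h4 : j = N := by omega
      rw [h4, Nat.mod_self] at h1
      omega
  · have h4 : i = N := by omega
    rcases Nat.lt_or_ge j N with h3 | h3
    · rw [Nat.mod_eq_of_lt h3, h4, Nat.mod_self] at h1
      omega
    · omega

variable {K Q : Type*} [AddCommGroup K] [AddCommGroup Q] {J : Type*} {φ : K →+ Q} {g : K}
  {f : J → K} {σ : Q → K} {T : Finset (Q × J)}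

/-- the letter on the edge `e` at the height `t` -/
noncomputable def lt (g : K) (σ : Q → K) (e : Q × J) (t : ZMod (addOrderOf g)) : K × J :=
  (σ e.1 + io g t, e.2)

theorem lt_add (e : Q × J) (t : ZMod (addOrderOf g)) :
    ((lt g σ e t).1 + g, (lt g σ e t).2) = lt g σ e (t + 1) := by
  unfold lt
  simp only [map_add, io_one, add_assoc]

theorem lt_inj (h : Crd φ g σ) {e e' : Q × J} {t t' : ZMod (addOrderOf g)} :
    lt g σ e t = lt g σ e' t' ↔ e = e' ∧ t = t' := by
  constructor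
  · intro he
    unfold lt at he
    obtain ⟨h1, h2⟩ := Prod.mk.inj he
    obtain ⟨h3, h4⟩ := h.pt_inj.1 h1
    exact ⟨Prod.ext h3 h2, h4⟩
  · rintro ⟨rfl, rfl⟩
    rfl

/-- all letters are on edges of `T` -/
def InT (g : K) (σ : Q → K) (T : Finset (Q × J)) (L : Finset (K × J)) : Prop :=
  ∀ l ∈ L, ∃ e ∈ T, ∃ t, l = lt g σ e t

theorem Tree.pt (hT : Tree φ f T σ) {e : Q × J} (he : e ∈ T) (t : ZMod (addOrderOf g)) :
    (lt g σ e t).1 + f (lt g σ e t).2 = σ (e.1 + φ (f e.2)) + io g t := by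
  unfold lt
  simp only
  rw [hT.edge e he, add_right_comm]

theorem mem_ends {e : Q × J} {q : Q} :
    q ∈ ends (fun j => φ (f j)) e ↔ q = e.1 ∨ q = e.1 + φ (f e.2) := by
  unfold ends
  exact Sym2.mem_iff

variable [DecidableEq K] [Fintype J] [DecidableEq J]

theorem mem_tails_lt (hT : Tree φ f T σ) {e : Q × J} (he : e ∈ T) {t : ZMod (addOrderOf g)}
    {x : K} : x ∈ tails f (lt g σ e t) ↔
      ∃ q ∈ ends (fun j => φ (f j)) e, x = σ q + io g t := by
  rw [mem_tails, hT.pt he t]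
  constructor
  · rintro (h | h)
    · exact ⟨e.1, mem_ends.2 (Or.inl rfl), h⟩
    · exact ⟨_, mem_ends.2 (Or.inr rfl), h⟩
  · rintro ⟨q, hq, rfl⟩
    rcases mem_ends.1 hq with rfl | rfl
    · exact Or.inl rfl
    · exact Or.inr rfl

section Compat

variable {col : Q → J → J}

theorem compat_of (h : Crd φ g σ) (hT : Tree φ f T σ) (hg : g ≠ 0) (hf : ∀ j, φ (f j) ≠ 0)
    {L : Finset (K × J)} (hL : InT g σ T L)
    (hor : ∀ e ∈ T, ∀ t, lt g σ e t ∈ L → lt g σ e (t + 1) ∉ L)
    (htl : ∀ e ∈ T, ∀ e' ∈ T, ∀ t, lt g σ e t ∈ L → lt g σ e' t ∈ L → e ≠ e' →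
      ∀ q, q ∈ ends (fun j => φ (f j)) e → q ∉ ends (fun j => φ (f j)) e') :
    Compat g f (fun x j => col (φ x) j) L := by
  refine ⟨hg, ?_, ?_, ?_, ?_⟩
  · intro l _ h0
    apply hf l.2
    rw [h0, map_zero]
  · intro l _
    simp only [map_add, h.phi_g, add_zero]
  · intro l hl
    obtain ⟨e, he, t, rfl⟩ := hL l hl
    rw [lt_add]
    exact hor e he t hl
  · intro l hl l' hl' hne
    obtain ⟨e, he, t, rfl⟩ := hL l hl
    obtain ⟨e', he', t', rfl⟩ := hL l' hl'
    rw [disjoint_left]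
    intro x hx hx'
    obtain ⟨q, hq, rfl⟩ := (mem_tails_lt hT he).1 hx
    obtain ⟨q', hq', hqq⟩ := (mem_tails_lt hT he').1 hx'
    obtain ⟨rfl, rfl⟩ := h.pt_inj.1 hqq
    refine htl e he e' he' t hl hl' ?_ q hq hq'
    rintro rfl
    exact hne rfl

theorem compat_hor {L : Finset (K × J)} (hL : Compat g f (fun x j => col (φ x) j) L) {e : Q × J}
    {t : ZMod (addOrderOf g)} (h1 : lt g σ e t ∈ L) : lt g σ e (t + 1) ∉ L := by
  have := hL.hor _ h1
  rwa [lt_add] at this

theorem compat_tail (h : Crd φ g σ) (hT : Tree φ f T σ) {L : Finset (K × J)}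
    (hL : Compat g f (fun x j => col (φ x) j) L) {e e' : Q × J} (he : e ∈ T) (he' : e' ∈ T)
    {t : ZMod (addOrderOf g)} (h1 : lt g σ e t ∈ L) (h2 : lt g σ e' t ∈ L) (hne : e ≠ e') {q : Q}
    (hq : q ∈ ends (fun j => φ (f j)) e) : q ∉ ends (fun j => φ (f j)) e' := by
  intro hq'
  have h3 := hL.tail _ h1 _ h2 (fun h4 => hne ((lt_inj h).1 h4).1)
  exact (disjoint_left.1 h3) ((mem_tails_lt hT he).2 ⟨q, hq, rfl⟩)
    ((mem_tails_lt hT he').2 ⟨q, hq', rfl⟩)

end Compat

section ConstG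

theorem constG_rung (h : Crd φ g σ) (hT : Tree φ f T σ) {L : Finset (K × J)} (hL : InT g σ T L)
    {C : K → ZMod 2} (hC : ConstG g f L C) {q : Q} {t : ZMod (addOrderOf g)}
    (hq : ∀ e ∈ T, q ∈ ends (fun j => φ (f j)) e → lt g σ e t ∉ L) :
    C (σ q + io g t) = C (σ q + io g (t + 1)) := by
  have h1 := hC.1 (σ q + io g t) (by
    intro l hl hx
    obtain ⟨e, he, t', rfl⟩ := hL l hl
    obtain ⟨q', hq', hqq⟩ := (mem_tails_lt hT he).1 hx
    obtain ⟨rfl, rfl⟩ := h.pt_inj.1 hqq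
    exact hq e he hq' hl)
  rw [h1, map_add, io_one, add_assoc]

theorem constG_letter (hT : Tree φ f T σ) {L : Finset (K × J)}
    {C : K → ZMod 2} (hC : ConstG g f L C) {e : Q × J} (he : e ∈ T) {t : ZMod (addOrderOf g)}
    (hl : lt g σ e t ∈ L) {q q' : Q} (hq : q ∈ ends (fun j => φ (f j)) e)
    (hq' : q' ∈ ends (fun j => φ (f j)) e) :
    C (σ q + io g t) = C (σ q' + io g t) ∧
      C (σ q + io g (t + 1)) = C (σ q' + io g (t + 1)) := by
  obtain ⟨h1, h2⟩ := hC.2 _ hl
  rw [hT.pt he t] at h1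
  rw [add_right_comm, hT.pt he t, add_assoc] at h2
  have h3 : ∀ s, io g s + g = io g (s + 1) := fun s => by rw [map_add, io_one]
  rw [h3] at h2
  have h4 : (lt g σ e t).1 = σ e.1 + io g t := rfl
  rw [h4] at h1 h2
  rw [add_assoc, h3] at h2
  rcases mem_ends.1 hq with rfl | rfl <;> rcases mem_ends.1 hq' with rfl | rfl
  · exact ⟨rfl, rfl⟩
  · exact ⟨h1, h2⟩
  · exact ⟨h1.symm, h2.symm⟩
  · exact ⟨rfl, rfl⟩

end ConstG

section Main

variable [Fintype K] {col : Q → J → J}

/-- the new class is connected -/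
theorem gConn (h : Crd φ g σ) (hT : Tree φ f T σ)
    (hd : Deg2 f (fun x j => col (φ x) j)) {L : Finset (K × J)}
    (hL : Compat g f (fun x j => col (φ x) j) L) (hLT : InT g σ T L)
    {A : Finset J} {P Y R : J → Q} {e₀ e₁ : J → Q × J} {m : J → ZMod (addOrderOf g)} {G : J → ℕ}
    (hG : ∀ a ∈ A, G a % 2 = 1 ∧ 3 ≤ G a ∧ G a ≤ addOrderOf g)
    (he₀ : ∀ a ∈ A, e₀ a ∈ T ∧ ends (fun j => φ (f j)) (e₀ a) = s(P a, Y a))
    (he₁ : ∀ a ∈ A, e₁ a ∈ T ∧ ends (fun j => φ (f j)) (e₁ a) = s(R a, Y a))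
    (hne : ∀ a ∈ A, P a ≠ Y a ∧ R a ≠ Y a ∧ P a ≠ R a)
    (hdis : ∀ a ∈ A, ∀ b ∈ A, a ≠ b → ∀ v, Win P Y R a v → ¬ Win P Y R b v)
    (hS : ∀ e ∈ T, (∃ t₀, ∀ t, lt g σ e t ∈ L ↔ t = t₀) ∨ ∃ a ∈ A, e = e₀ a ∨ e = e₁ a)
    (h₀ : ∀ a ∈ A, ∀ t, lt g σ (e₀ a) t ∈ L ↔
      ∃ k < G a - 1, k % 2 = 0 ∧ t = m a + ((k + 1 : ℕ) : ZMod (addOrderOf g)))
    (h₁ : ∀ a ∈ A, ∀ t, lt g σ (e₁ a) t ∈ L ↔
      ∃ k < G a - 1, k % 2 = 1 ∧ t = m a + ((k + 1 : ℕ) : ZMod (addOrderOf g)))
    {C : K → ZMod 2} (hC : ConstG g f L C) (x y : K) : C x = C y := by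
  -- the rungs used by single letters
  have s1 : ∀ e ∈ T, (∃ t₀, ∀ t, lt g σ e t ∈ L ↔ t = t₀) → ∀ q ∈ ends (fun j => φ (f j)) e,
      ∀ t, lt g σ e t ∈ L → C (σ q + io g t) = C (σ q + io g (t + 1)) := by
    rintro e he ⟨t₀, ht₀⟩ q hq t ht
    obtain ⟨S, hS0, hS1, hS2⟩ := hT.side e he
    have h2 := single_rung hd hL h.phi_g ht (S := S) (by
        unfold lt
        simp only
        rw [h.phi_pt]
        exact hS0) (by
        unfold lt
        simp only
        rw [h.phi_pt]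
        exact hS1) (by
        intro l' hl' hne
        obtain ⟨e', he', t', rfl⟩ := hLT l' hl'
        have h3 : e' ≠ e := by
          rintro rfl
          apply hne
          rw [(ht₀ t').1 hl', (ht₀ t).1 ht]
        have h4 := hS2 e' he' h3
        unfold lt
        simp only
        rw [h.phi_pt]
        exact h4) hC
    rw [hT.pt he] at h2
    have h3 : (lt g σ e t).1 = σ e.1 + io g t := rfl
    rw [h3] at h2
    have h4 : ∀ s, io g s + g = io g (s + 1) := fun s => by rw [map_add, io_one]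
    simp only [add_assoc, h4] at h2
    rcases mem_ends.1 hq with rfl | rfl
    · exact h2.1
    · exact h2.2
  -- the rungs not used by the windows
  have s2 : ∀ q t, (∀ a ∈ A, ∀ k < G a - 1,
      t = m a + ((k + 1 : ℕ) : ZMod (addOrderOf g)) →
      (k % 2 = 0 → q ∉ ends (fun j => φ (f j)) (e₀ a)) ∧
      (k % 2 = 1 → q ∉ ends (fun j => φ (f j)) (e₁ a))) →
      C (σ q + io g t) = C (σ q + io g (t + 1)) := by
    intro q t hq
    by_cases h2 : ∃ e ∈ T, q ∈ ends (fun j => φ (f j)) e ∧ lt g σ e t ∈ L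
    · obtain ⟨e, he, hqe, hle⟩ := h2
      rcases hS e he with h3 | ⟨a, ha, rfl | rfl⟩
      · exact s1 e he h3 q hqe t hle
      · obtain ⟨k, hk, hk2, ht⟩ := (h₀ a ha t).1 hle
        exact absurd hqe ((hq a ha k hk ht).1 hk2)
      · obtain ⟨k, hk, hk2, ht⟩ := (h₁ a ha t).1 hle
        exact absurd hqe ((hq a ha k hk ht).2 hk2)
    · push Not at h2
      exact constG_rung h hT hLT hC (fun e he hqe => h2 e he hqe)
  -- the windows
  have s3 : ∀ a ∈ A, ∀ v, Win P Y R a v → ∀ t, C (σ v + io g t) = C (σ v + io g (t + 1)) := by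
    intro a ha
    obtain ⟨g1, g2, g3⟩ := hG a ha
    obtain ⟨n1, n2, n3⟩ := hne a ha
    obtain ⟨he0, he0'⟩ := he₀ a ha
    obtain ⟨he1, he1'⟩ := he₁ a ha
    have hw0 : ∀ b ∈ A, ∀ v, v ∈ ends (fun j => φ (f j)) (e₀ b) → Win P Y R b v := by
      intro b hb v hv
      rw [(he₀ b hb).2, Sym2.mem_iff] at hv
      rcases hv with h4 | h4
      · exact Or.inl h4
      · exact Or.inr (Or.inl h4)
    have hw1 : ∀ b ∈ A, ∀ v, v ∈ ends (fun j => φ (f j)) (e₁ b) → Win P Y R b v := by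
      intro b hb v hv
      rw [(he₁ b hb).2, Sym2.mem_iff] at hv
      rcases hv with h4 | h4
      · exact Or.inr (Or.inr h4)
      · exact Or.inr (Or.inl h4)
    -- reduction to the window `a`
    have hred : ∀ v, Win P Y R a v → ∀ i, 1 ≤ i → i ≤ addOrderOf g →
        (i + 1 ≤ G a → (i % 2 = 1 → v ∉ ends (fun j => φ (f j)) (e₀ a)) ∧
          (i % 2 = 0 → v ∉ ends (fun j => φ (f j)) (e₁ a))) →
        C (σ v + io g (m a + (i : ZMod (addOrderOf g)))) =
          C (σ v + io g (m a + ((i + 1 : ℕ) : ZMod (addOrderOf g)))) := by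
      intro v hv i hi hi' hcond
      have h5 := s2 v (m a + (i : ZMod (addOrderOf g))) (by
        intro b hb k hk hkt
        by_cases hab : a = b
        · subst hab
          have h6 : i = k + 1 := off_inj hi hi' (by omega) (by omega) hkt
          subst h6
          obtain ⟨h7, h8⟩ := hcond (by omega)
          exact ⟨fun h9 => h7 (by omega), fun h9 => h8 (by omega)⟩
        · exact ⟨fun _ h6 => hdis a ha b hb hab v hv (hw0 b hb v h6),
            fun _ h6 => hdis a ha b hb hab v hv (hw1 b hb v h6)⟩)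
      rw [h5]
      congr 3
      push_cast
      ring
    have hper : ∀ v, C (σ v + io g (m a + ((addOrderOf g + 1 : ℕ) : ZMod (addOrderOf g)))) =
        C (σ v + io g (m a + ((1 : ℕ) : ZMod (addOrderOf g)))) := by
      intro v
      congr 3
      push_cast
      simp
    have hl0 : ∀ k, k < G a - 1 → k % 2 = 0 →
        lt g σ (e₀ a) (m a + ((k + 1 : ℕ) : ZMod (addOrderOf g))) ∈ L :=
      fun k hk hk2 => (h₀ a ha _).2 ⟨k, hk, hk2, rfl⟩
    have hl1 : ∀ k, k < G a - 1 → k % 2 = 1 →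
        lt g σ (e₁ a) (m a + ((k + 1 : ℕ) : ZMod (addOrderOf g))) ∈ L :=
      fun k hk hk2 => (h₁ a ha _).2 ⟨k, hk, hk2, rfl⟩
    have hend0P : P a ∈ ends (fun j => φ (f j)) (e₀ a) := by rw [he0']; simp
    have hend0Y : Y a ∈ ends (fun j => φ (f j)) (e₀ a) := by rw [he0']; simp
    have hend1R : R a ∈ ends (fun j => φ (f j)) (e₁ a) := by rw [he1']; simp
    have hend1Y : Y a ∈ ends (fun j => φ (f j)) (e₁ a) := by rw [he1']; simp
    have hP1 : P a ∉ ends (fun j => φ (f j)) (e₁ a) := by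
      rw [he1', Sym2.mem_iff, not_or]
      exact ⟨n3, n1⟩
    have hR0 : R a ∉ ends (fun j => φ (f j)) (e₀ a) := by
      rw [he0', Sym2.mem_iff, not_or]
      exact ⟨n3.symm, n2⟩
    have hcast : ∀ k : ℕ, m a + ((k : ℕ) : ZMod (addOrderOf g)) + 1 =
        m a + ((k + 1 : ℕ) : ZMod (addOrderOf g)) := by
      intro k
      push_cast
      ring
    have hchain := window_chain (N := addOrderOf g) g1 g2 g3
      (fun k => C (σ (P a) + io g (m a + (k : ZMod (addOrderOf g)))))
      (fun k => C (σ (Y a) + io g (m a + (k : ZMod (addOrderOf g)))))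
      (fun k => C (σ (R a) + io g (m a + (k : ZMod (addOrderOf g)))))
      (hper _) (hper _) (hper _)
      (by
        intro k hk hk' hcond
        exact hred (P a) (Or.inl rfl) k hk hk' (fun h6 => ⟨fun h7 => absurd ⟨h7, h6⟩ hcond,
          fun _ => hP1⟩))
      (by
        intro k hk hk' hcond
        exact hred (R a) (Or.inr (Or.inr rfl)) k hk hk' (fun h6 => ⟨fun _ => hR0,
          fun h7 => absurd ⟨h7, h6⟩ hcond⟩))
      (by
        intro k hk hk' hcond
        exact hred (Y a) (Or.inr (Or.inl rfl)) k hk hk' (fun h6 => absurd h6 hcond))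
      (by
        intro k hk hk'
        by_cases hk2 : k % 2 = 1
        · have h6 := hl0 (k - 1) (by omega) (by omega)
          rw [Nat.sub_add_cancel hk] at h6
          exact (constG_letter hT hC he0 h6 hend0P hend0Y).1
        · have h6 := hl0 (k - 2) (by omega) (by omega)
          have h7 := (constG_letter hT hC he0 h6 hend0P hend0Y).2
          rw [hcast, show k - 2 + 1 + 1 = k by omega] at h7
          exact h7)
      (by
        intro k hk hk'
        by_cases hk2 : k % 2 = 0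
        · have h6 := hl1 (k - 1) (by omega) (by omega)
          rw [Nat.sub_add_cancel (by omega)] at h6
          exact (constG_letter hT hC he1 h6 hend1Y hend1R).1
        · have h6 := hl1 (k - 2) (by omega) (by omega)
          have h7 := (constG_letter hT hC he1 h6 hend1Y hend1R).2
          rw [hcast, show k - 2 + 1 + 1 = k by omega] at h7
          exact h7)
    -- all heights are of the form `m a + k`, `1 ≤ k ≤ N`
    have hN : 0 < addOrderOf g := addOrderOf_pos g
    have : NeZero (addOrderOf g) := ⟨hN.ne'⟩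
    have hrep : ∀ t : ZMod (addOrderOf g), ∃ k, 1 ≤ k ∧ k ≤ addOrderOf g ∧
        t = m a + (k : ZMod (addOrderOf g)) := by
      intro t
      have h6 := ZMod.val_lt (t - m a)
      have h7 : ((t - m a).val : ZMod (addOrderOf g)) = t - m a := ZMod.natCast_zmod_val _
      rcases Nat.eq_zero_or_pos (t - m a).val with h8 | h8
      · refine ⟨addOrderOf g, hN, le_rfl, ?_⟩
        rw [h8, Nat.cast_zero] at h7
        have h9 := CharP.cast_eq_zero (ZMod (addOrderOf g)) (addOrderOf g)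
        rw [h9, add_zero]
        exact (sub_eq_zero.1 h7.symm)
      · exact ⟨(t - m a).val, h8, h6.le, by rw [h7]; ring⟩
    have hval : ∀ v, Win P Y R a v → ∀ t, C (σ v + io g t) =
        C (σ (Y a) + io g (m a + ((1 : ℕ) : ZMod (addOrderOf g)))) := by
      intro v hv t
      obtain ⟨k, hk, hk', rfl⟩ := hrep t
      obtain ⟨h6, h7, h8⟩ := hchain k hk hk'
      rcases hv with rfl | rfl | rfl
      · exact h7
      · exact h6
      · exact h8
    intro v hv t
    rw [hval v hv t, hval v hv (t + 1)]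
  -- all rungs
  have s4 : ∀ q t, C (σ q + io g t) = C (σ q + io g (t + 1)) := by
    intro q t
    by_cases hq : ∃ a ∈ A, Win P Y R a q
    · obtain ⟨a, ha, hw⟩ := hq
      exact s3 a ha q hw t
    · push Not at hq
      refine s2 q t ?_
      intro a ha k _ _
      constructor
      · intro _ h6
        rw [(he₀ a ha).2, Sym2.mem_iff] at h6
        rcases h6 with h6 | h6
        · exact hq a ha (Or.inl h6)
        · exact hq a ha (Or.inr (Or.inl h6))
      · intro _ h6
        rw [(he₁ a ha).2, Sym2.mem_iff] at h6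
        rcases h6 with h6 | h6
        · exact hq a ha (Or.inr (Or.inr h6))
        · exact hq a ha (Or.inr (Or.inl h6))
  have s5 : ∀ q t, C (σ q + io g t) = C (σ q) := by
    intro q t
    obtain ⟨k, rfl⟩ := ZMod.intCast_surjective t
    have hN : 0 < addOrderOf g := addOrderOf_pos g
    have : NeZero (addOrderOf g) := ⟨hN.ne'⟩
    have h6 : ∀ n : ℕ, C (σ q + io g (n : ZMod (addOrderOf g))) = C (σ q) := by
      intro n
      induction n with
      | zero => simp
      | succ n ih =>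
        rw [← ih, s4 q (n : ZMod (addOrderOf g))]
        push_cast
        rfl
    have h7 := h6 ((k : ZMod (addOrderOf g))).val
    rwa [ZMod.natCast_zmod_val] at h7
  -- the tree
  have s6 : ∀ e ∈ T, C (σ e.1) = C (σ (e.1 + φ (f e.2))) := by
    intro e he
    have h6 : ∃ t, lt g σ e t ∈ L := by
      rcases hS e he with ⟨t₀, h7⟩ | ⟨a, ha, rfl | rfl⟩
      · exact ⟨t₀, (h7 t₀).2 rfl⟩
      · exact ⟨_, (h₀ a ha _).2 ⟨0, by have := (hG a ha).2.1; omega, rfl, rfl⟩⟩
      · exact ⟨_, (h₁ a ha _).2 ⟨1, by have := (hG a ha).2.1; omega, rfl, rfl⟩⟩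
    obtain ⟨t, ht⟩ := h6
    have h7 := (constG_letter hT hC he ht (q := e.1) (q' := e.1 + φ (f e.2))
      (mem_ends.2 (Or.inl rfl)) (mem_ends.2 (Or.inr rfl))).1
    rwa [s5, s5] at h7
  have s7 := hT.conn (fun q => C (σ q)) s6
  obtain ⟨t, ht⟩ := h.exists_pt x
  obtain ⟨t', ht'⟩ := h.exists_pt y
  rw [ht, ht', s5, s5]
  exact s7 _ _

end Main

end Pool.Agent.Helper43.TD
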