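import Pool.Agent.Helper74.BL.Base

/-!
# The components of a lifted class

`φ : K →+ Q` has kernel `⟨g⟩`, `col` is a colouring for the labels `φ ∘ f` whose class `c` is
connected. The components of the lifted class are the level sets of a function
`l : K → ZMod G`, `G ∣ ord g`, with `l (x + g) = l x + 1`.
-/

set_option autoImplicit false

namespace Pool.Agent.Helper43.TD

open Finset Pool.Agent.Helper74.BL

variable {K Q : Type*} [AddCommGroup K] [AddCommGroup Q] {J : Type*}

/-- the levels of the class `c` -/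
structure Level (g : K) (f : J → K) (base : K → J → J) (c : J) (G : ℕ) (l : K → ZMod G) :
    Prop where
  pos : 0 < G
  dvd : G ∣ addOrderOf g
  edge : ∀ x j, base x j = c → l (x + f j) = l x
  shift : ∀ x, l (x + g) = l x + 1
  conn : ∀ {α : Type} (C : K → α), (∀ x j, base x j = c → C x = C (x + f j)) →
    ∀ x y, l x = l y → C x = C y

/-- the component relation -/
def Rel (f : J → K) (base : K → J → J) (c : J) : K → K → Prop :=
  Relation.EqvGen (fun x y => ∃ i, base x i = c ∧ y = x + f i)

theorem Rel.const {f : J → K} {base : K → J → J} {c : J} {α : Type*} {C : K → α}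
    (hC : ∀ x j, base x j = c → C x = C (x + f j)) {x y : K} (h : Rel f base c x y) :
    C x = C y := by
  induction h with
  | rel x y h =>
    obtain ⟨j, hj, rfl⟩ := h
    exact hC x j hj
  | refl x => rfl
  | symm x y _ ih => exact ih.symm
  | trans x y z _ _ ih1 ih2 => exact ih1.trans ih2

theorem Rel.add {f : J → K} {base : K → J → J} {c : J} {x y : K} (h : Rel f base c x y)
    {z : K} (hz : ∀ x j, base (x + z) j = base x j) : Rel f base c (x + z) (y + z) := by
  induction h with
  | rel x y h =>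
    obtain ⟨j, hj, rfl⟩ := h
    exact Relation.EqvGen.rel _ _ ⟨j, by rw [hz, hj], by abel⟩
  | refl x => exact Relation.EqvGen.refl _
  | symm x y _ ih => exact Relation.EqvGen.symm _ _ ih
  | trans x y z _ _ ih1 ih2 => exact Relation.EqvGen.trans _ _ _ ih1 ih2

theorem exists_level [Finite K] {f : J → K} (φ : K →+ Q) (g : K)
    (hφ : ∀ x, φ x = 0 ↔ x ∈ AddSubgroup.zmultiples g) {col : Q → J → J} {c : J}
    (hc : Conn (fun j => φ (f j)) col c) :
    ∃ (G : ℕ) (l : K → ZMod G), Level g f (fun x j => col (φ x) j) c G l := by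
  classical
  set base : K → J → J := fun x j => col (φ x) j with hbase
  have hz : ∀ m : ℤ, φ (m • g) = 0 := fun m => (hφ _).2 (AddSubgroup.zsmul_mem_zmultiples g m)
  have hbz : ∀ m : ℤ, ∀ x j, base (x + m • g) j = base x j := by
    intro m x j
    simp only [hbase, map_add, hz, add_zero]
  -- every vertex is joined with a multiple of `g`
  have hk : ∀ x, ∃ k : ℤ, Rel f base c x (k • g) := by
    intro x
    have h1 := hc {q | ∃ y, φ y = q ∧ Rel f base c 0 y} (by
      intro q i hi
      constructor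
      · rintro ⟨y, rfl, hy⟩
        refine ⟨y + f i, by simp, hy.trans _ _ _ (Relation.EqvGen.rel _ _ ⟨i, hi, rfl⟩)⟩
      · rintro ⟨y, hy1, hy⟩
        refine ⟨y - f i, by simp [hy1], hy.trans _ _ _ (Relation.EqvGen.symm _ _
          (Relation.EqvGen.rel _ _ ⟨i, ?_, by simp⟩))⟩
        simp only [hbase, map_sub, hy1, add_sub_cancel_right]
        exact hi) (φ 0) (φ x) ⟨0, rfl, Relation.EqvGen.refl _⟩
    obtain ⟨y, hy, hR⟩ := h1
    have h2 : φ (x - y) = 0 := by rw [map_sub, hy, sub_self]
    obtain ⟨k, hk⟩ := AddSubgroup.mem_zmultiples_iff.1 ((hφ _).1 h2)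
    have h3 := hR.add (z := k • g) (hbz k)
    rw [zero_add, hk, add_sub_cancel] at h3
    exact ⟨k, by rw [hk]; exact Relation.EqvGen.symm _ _ h3⟩
  let S : AddSubgroup ℤ :=
    { carrier := {m | Rel f base c 0 (m • g)}
      zero_mem' := by
        simp only [Set.mem_ofPred_eq, zero_smul]
        exact Relation.EqvGen.refl _
      add_mem' := by
        intro a b ha hb
        simp only [Set.mem_ofPred_eq] at ha hb ⊢
        have h3 := Rel.add hb (z := a • g) (hbz a)
        rw [zero_add, ← add_smul, add_comm b a] at h3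
        exact Relation.EqvGen.trans _ _ _ ha h3
      neg_mem' := by
        intro a ha
        simp only [Set.mem_ofPred_eq] at ha ⊢
        have h3 := Rel.add ha (z := (-a) • g) (hbz (-a))
        rw [zero_add, ← add_smul, add_neg_cancel, zero_smul] at h3
        exact Relation.EqvGen.symm _ _ h3 }
  have hSmem : ∀ m : ℤ, m ∈ S ↔ Rel f base c 0 (m • g) := fun m => Iff.rfl
  obtain ⟨a, ha⟩ := Int.subgroup_cyclic S
  set G := a.natAbs with hG
  have hSG : ∀ m : ℤ, m ∈ S ↔ (G : ℤ) ∣ m := by
    intro m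
    rw [ha, AddSubgroup.mem_closure_singleton, hG, Int.natAbs_dvd]
    constructor
    · rintro ⟨n, rfl⟩
      exact ⟨n, by rw [smul_eq_mul, mul_comm]⟩
    · rintro ⟨n, rfl⟩
      exact ⟨n, by rw [smul_eq_mul, mul_comm]⟩
  have hN : ((addOrderOf g : ℕ) : ℤ) ∈ S := by
    rw [hSmem, natCast_zsmul, addOrderOf_nsmul_eq_zero]
    exact Relation.EqvGen.refl _
  have hdvd : G ∣ addOrderOf g := Int.natCast_dvd_natCast.1 ((hSG _).1 hN)
  have hpos : 0 < G := Nat.pos_of_dvd_of_pos hdvd (addOrderOf_pos g)
  choose k hk using hk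
  -- the class of a multiple of `g`
  have hmul : ∀ m n : ℤ, Rel f base c (m • g) (n • g) ↔ ((m : ℤ) : ZMod G) = n := by
    intro m n
    rw [eq_comm, ← sub_eq_zero, ← Int.cast_sub, ZMod.intCast_zmod_eq_zero_iff_dvd, ← hSG, hSmem]
    constructor
    · intro h
      have h3 := Rel.add h (z := (-m) • g) (hbz (-m))
      rwa [← add_smul, ← add_smul, add_neg_cancel, zero_smul, ← sub_eq_add_neg] at h3
    · intro h
      have h3 := Rel.add h (z := m • g) (hbz m)
      rwa [← add_smul, zero_add, sub_add_cancel] at h3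
  have hl : ∀ x (m : ℤ), Rel f base c x (m • g) → ((k x : ℤ) : ZMod G) = m := by
    intro x m h
    exact (hmul _ _).1 (Relation.EqvGen.trans _ _ _ (Relation.EqvGen.symm _ _ (hk x)) h)
  have hR : ∀ x y, Rel f base c x y ↔ ((k x : ℤ) : ZMod G) = ((k y : ℤ) : ZMod G) := by
    intro x y
    constructor
    · intro h
      exact hl x _ (Relation.EqvGen.trans _ _ _ h (hk y))
    · intro h
      exact Relation.EqvGen.trans _ _ _ (hk x) (Relation.EqvGen.trans _ _ _ ((hmul _ _).2 h)
        (Relation.EqvGen.symm _ _ (hk y)))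
  refine ⟨G, fun x => ((k x : ℤ) : ZMod G), hpos, hdvd, ?_, ?_, ?_⟩
  · intro x j hj
    exact ((hR _ _).1 (Relation.EqvGen.rel _ _ ⟨j, hj, rfl⟩)).symm
  · intro x
    have h3 := Rel.add (hk x) (z := (1 : ℤ) • g) (hbz 1)
    rw [← add_smul, one_smul] at h3
    have h4 := hl _ _ h3
    simp only [h4, Int.cast_add, Int.cast_one]
  · intro α C hC x y hxy
    exact Rel.const hC ((hR x y).2 hxy)

end Pool.Agent.Helper43.TD
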