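import Pool.Agent.Helper43.TD.GConn

/-!
# The letters of the base class and the words of the other classes
-/

set_option autoImplicit false
set_option linter.unusedSectionVars false

namespace Pool.Agent.Helper43.TD

open Finset Pool.Agent.Helper74.BL Pool.Agent.Helper4.BL

section Word

variable {K Q : Type*} [AddCommGroup K] [AddCommGroup Q] {J : Type*} {φ : K →+ Q} {g : K}
  {f : J → K} {σ : Q → K} {T : Finset (Q × J)} [DecidableEq K] [Fintype J] [DecidableEq J]
  {col : Q → J → J}

/-- a word of `n` letters, alternately on `e₀` and `e₁`, from the height `m + 1` on -/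
noncomputable def word (g : K) (σ : Q → K) (e₀ e₁ : Q × J) (m : ZMod (addOrderOf g)) (n : ℕ) :
    Finset (K × J) :=
  (range n).image fun k =>
    lt g σ (if k % 2 = 0 then e₀ else e₁) (m + ((k + 1 : ℕ) : ZMod (addOrderOf g)))

theorem mem_word (h : Crd φ g σ) {e₀ e₁ e : Q × J} {m t : ZMod (addOrderOf g)} {n : ℕ} :
    lt g σ e t ∈ word g σ e₀ e₁ m n ↔ ∃ k < n, e = (if k % 2 = 0 then e₀ else e₁) ∧
      t = m + ((k + 1 : ℕ) : ZMod (addOrderOf g)) := by
  unfold word
  rw [mem_image]
  constructor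
  · rintro ⟨k, hk, he⟩
    obtain ⟨h1, h2⟩ := (lt_inj h).1 he
    exact ⟨k, mem_range.1 hk, h1.symm, h2.symm⟩
  · rintro ⟨k, hk, rfl, rfl⟩
    exact ⟨k, mem_range.2 hk, rfl⟩

theorem word_inT {e₀ e₁ : Q × J} (h₀ : e₀ ∈ T) (h₁ : e₁ ∈ T) (m : ZMod (addOrderOf g)) (n : ℕ) :
    InT g σ T (word g σ e₀ e₁ m n) := by
  intro l hl
  obtain ⟨k, -, rfl⟩ := mem_image.1 hl
  refine ⟨_, ?_, _, rfl⟩
  split_ifs
  · exact h₀
  · exact h₁

theorem word_compat (h : Crd φ g σ) (hT : Tree φ f T σ) (hg : g ≠ 0) (hf : ∀ j, φ (f j) ≠ 0)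
    {e₀ e₁ : Q × J} (h₀ : e₀ ∈ T) (h₁ : e₁ ∈ T) (hne : e₀ ≠ e₁) (m : ZMod (addOrderOf g))
    {n : ℕ} (hn : n + 1 ≤ addOrderOf g) :
    Compat g f (fun x j => col (φ x) j) (word g σ e₀ e₁ m n) := by
  refine compat_of h hT hg hf (word_inT h₀ h₁ m n) ?_ ?_
  · intro e _ t ht ht'
    obtain ⟨k, hk, hke, hkt⟩ := (mem_word h).1 ht
    obtain ⟨k', hk', hke', hkt'⟩ := (mem_word h).1 ht'
    have h2 : k + 2 = k' + 1 := by
      refine off_inj (N := addOrderOf g) (m := m) (by omega) (by omega) (by omega) (by omega) ?_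
      rw [← hkt', hkt]
      push_cast
      ring
    by_cases hp : k % 2 = 0
    · rw [if_pos hp] at hke
      rw [if_neg (by omega)] at hke'
      exact hne (hke.symm.trans hke')
    · rw [if_neg hp] at hke
      rw [if_pos (by omega)] at hke'
      exact hne (hke'.symm.trans hke)
  · intro e _ e' _ t ht ht' hee
    obtain ⟨k, hk, hke, hkt⟩ := (mem_word h).1 ht
    obtain ⟨k', hk', hke', hkt'⟩ := (mem_word h).1 ht'
    have h2 : k + 1 = k' + 1 :=
      off_inj (N := addOrderOf g) (m := m) (by omega) (by omega) (by omega) (by omega)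
        (by rw [← hkt', hkt])
    have h3 : k = k' := by omega
    subst h3
    exact absurd (hke.trans hke'.symm) hee

theorem Level.io {base : K → J → J} {c : J} {G : ℕ} {l : K → ZMod G} (hl : Level g f base c G l)
    (x : K) (k : ℕ) (t : ZMod (addOrderOf g)) :
    l (x + Pool.Agent.Helper43.TD.io g (t + (k : ZMod (addOrderOf g)))) =
      l (x + Pool.Agent.Helper43.TD.io g t) + (k : ZMod G) := by
  induction k with
  | zero => simp
  | succ k ih =>
    have h1 : x + Pool.Agent.Helper43.TD.io g (t + ((k + 1 : ℕ) : ZMod (addOrderOf g))) =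
        x + Pool.Agent.Helper43.TD.io g (t + (k : ZMod (addOrderOf g))) + g := by
      push_cast
      rw [← add_assoc t, map_add (Pool.Agent.Helper43.TD.io g) _ 1, io_one, add_assoc]
    rw [h1, hl.shift, ih]
    push_cast
    ring

theorem word_vc [Fintype K] (h : Crd φ g σ) (hT : Tree φ f T σ) (hg : g ≠ 0)
    (hf : ∀ j, φ (f j) ≠ 0) (hd : Deg2 f (fun x j => col (φ x) j)) {a : J} {G : ℕ}
    {l : K → ZMod G} (hl : Level g f (fun x j => col (φ x) j) a G l) (hGN : G ≤ addOrderOf g)
    {e₀ e₁ : Q × J} (h₀ : e₀ ∈ T) (h₁ : e₁ ∈ T) (hne : e₀ ≠ e₁) (hc₀ : col e₀.1 e₀.2 = a)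
    (hc₁ : col e₁.1 e₁.2 = a) {Y : Q} (hY₀ : Y ∈ ends (fun j => φ (f j)) e₀)
    (hY₁ : Y ∈ ends (fun j => φ (f j)) e₁) (m : ZMod (addOrderOf g)) :
    VC g f (fun x j => col (φ x) j) a (word g σ e₀ e₁ m (G - 1)) := by
  have hG := hl.pos
  have hlev : ∀ e ∈ T, col e.1 e.2 = a → Y ∈ ends (fun j => φ (f j)) e →
      ∀ t, l (lt g σ e t).1 = l (σ Y + io g t) := by
    intro e he hce hYe t
    unfold lt
    simp only
    rcases mem_ends.1 hYe with rfl | rfl
    · rfl
    · rw [hT.edge e he, add_right_comm]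
      refine (hl.edge _ _ ?_).symm
      rw [h.phi_pt]
      exact hce
  unfold word
  refine level_word hd hl _ (l (σ Y + io g (m + ((1 : ℕ) : ZMod (addOrderOf g))))) ?_ ?_
  · intro k hk
    have hk2 : m + ((k + 1 : ℕ) : ZMod (addOrderOf g)) =
        (m + ((1 : ℕ) : ZMod (addOrderOf g))) + (k : ZMod (addOrderOf g)) := by
      push_cast
      ring
    by_cases hp : k % 2 = 0
    · simp only [if_pos hp]
      refine ⟨?_, ?_⟩
      · unfold lt
        simp only
        rw [h.phi_pt]
        exact hc₀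
      · rw [hlev e₀ h₀ hc₀ hY₀, hk2, hl.io]
    · simp only [if_neg hp]
      refine ⟨?_, ?_⟩
      · unfold lt
        simp only
        rw [h.phi_pt]
        exact hc₁
      · rw [hlev e₁ h₁ hc₁ hY₁, hk2, hl.io]
  · exact word_compat h hT hg hf h₀ h₁ hne m (by omega)

end Word

/-- letters of the base class on edges of `T`, the base class is connected -/
structure Good {K Q : Type*} [AddCommGroup K] [AddCommGroup Q] {J : Type*} [DecidableEq K]
    (g : K) (f : J → K) (σ : Q → K) (base : K → J → J) (c₁ : J) (T : Finset (Q × J))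
    (L : Finset (K × J)) : Prop where
  compat : Compat g f base L
  cls : ∀ l ∈ L, base l.1 l.2 = c₁
  vc : VC g f base c₁ L
  inT : InT g σ T L

section Stages

variable {K Q : Type} [AddCommGroup K] [AddCommGroup Q] {J : Type} {φ : K →+ Q} {g : K}
  {f : J → K} {σ : Q → K} {T : Finset (Q × J)} [DecidableEq K] [Fintype K] [Fintype J]
  [DecidableEq J] {col : Q → J → J}

theorem stage1 (S1 : S1K) (h : Crd φ g σ) (hg : g ≠ 0)
    (hodd : Odd (addOrderOf g)) (hf : ∀ j, φ (f j) ≠ 0)
    (hd : Deg2 f (fun x j => col (φ x) j)) {c₁ : J} {L₀ : Finset (K × J)}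
    (hL₀ : Good g f σ (fun x j => col (φ x) j) c₁ T L₀) (S : Finset (Q × J))
    (hST : ∀ e ∈ S, e ∈ T) (hSc : ∀ e ∈ S, col e.1 e.2 = c₁)
    (hfree : ∀ e ∈ S, ∀ t, lt g σ e t ∉ L₀) :
    ∃ L, Good g f σ (fun x j => col (φ x) j) c₁ T L ∧ ∃ ht : Q × J → ZMod (addOrderOf g),
      ∀ e t, lt g σ e t ∈ L ↔ lt g σ e t ∈ L₀ ∨ (e ∈ S ∧ t = ht e) := by
  classical
  induction S using Finset.induction_on with
  | empty => exact ⟨L₀, hL₀, fun _ => 0, fun e t => by simp⟩
  | insert e S he ih =>
    obtain ⟨L, hL, ht, hmem⟩ := ih (fun e' he' => hST e' (mem_insert_of_mem he'))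
      (fun e' he' => hSc e' (mem_insert_of_mem he')) (fun e' he' => hfree e' (mem_insert_of_mem he'))
    have hze : ∀ t : ℤ, φ (t • g) = 0 := fun t =>
      (h.ker _).2 (AddSubgroup.zsmul_mem_zmultiples g t)
    have hlt : ∀ t : ℤ, (σ e.1 + t • g, e.2) = lt g σ e (t : ZMod (addOrderOf g)) := by
      intro t
      unfold lt
      rw [io_int]
    obtain ⟨t, h1, h2⟩ := S1 K J g f (fun x j => col (φ x) j) c₁ L (σ e.1) e.2 hg hodd
      (fun h0 => hf e.2 (by rw [h0, map_zero]))
      (fun t h0 => hf e.2 (by rw [h0, hze])) hd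
      (fun x j => by simp only [map_add, h.phi_g, add_zero]) hL.compat hL.cls hL.vc
      (by simp only [h.sec]; exact hSc e (mem_insert_self _ _))
      (fun t => by
        rw [hlt, hmem, not_or]
        exact ⟨hfree e (mem_insert_self _ _) _, fun h0 => he h0.1⟩)
    rw [hlt] at h1 h2
    refine ⟨insert (lt g σ e (t : ZMod (addOrderOf g))) L, ⟨h1, ?_, h2, ?_⟩,
      Function.update ht e (t : ZMod (addOrderOf g)), ?_⟩
    · intro l hl
      rcases mem_insert.1 hl with rfl | hl
      · unfold lt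
        simp only [h.phi_pt]
        exact hSc e (mem_insert_self _ _)
      · exact hL.cls l hl
    · intro l hl
      rcases mem_insert.1 hl with rfl | hl
      · exact ⟨e, hST e (mem_insert_self _ _), _, rfl⟩
      · exact hL.inT l hl
    · intro e' t'
      rw [mem_insert, hmem, lt_inj h]
      constructor
      · rintro (⟨rfl, rfl⟩ | h3 | ⟨h3, h4⟩)
        · right
          exact ⟨mem_insert_self _ _, by rw [Function.update_self]⟩
        · left
          exact h3
        · right
          have h5 : e' ≠ e := by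
            rintro rfl
            exact he h3
          refine ⟨mem_insert_of_mem h3, ?_⟩
          rw [Function.update_of_ne h5, h4]
      · rintro (h3 | ⟨h3, h4⟩)
        · right
          left
          exact h3
        · rcases mem_insert.1 h3 with rfl | h6
          · left
            rw [Function.update_self] at h4
            exact ⟨rfl, h4⟩
          · right
            right
            have h5 : e' ≠ e := by
              intro h7
              rw [h7] at h6
              exact he h6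
            rw [Function.update_of_ne h5] at h4
            exact ⟨h6, h4⟩

theorem stage3 (S2 : S2K) (h : Crd φ g σ) (hT : Tree φ f T σ) (hg : g ≠ 0)
    (hodd : Odd (addOrderOf g)) (hf : ∀ j, φ (f j) ≠ 0)
    (hd : Deg2 f (fun x j => col (φ x) j)) {c₁ : J} {L₀ : Finset (K × J)}
    (hL₀ : Good g f σ (fun x j => col (φ x) j) c₁ T L₀) (B : Finset J) (X : J → Q)
    (u v : J → Q × J) (s : J → ZMod (addOrderOf g))
    (hu : ∀ a ∈ B, u a ∈ T ∧ col (u a).1 (u a).2 = c₁ ∧
      X a ∈ ends (fun j => φ (f j)) (u a) ∧ ∀ t, lt g σ (u a) t ∉ L₀)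
    (hv : ∀ a ∈ B, v a ∈ T ∧ col (v a).1 (v a).2 = c₁ ∧
      X a ∈ ends (fun j => φ (f j)) (v a) ∧ ∀ t, lt g σ (v a) t ∉ L₀)
    (huv : ∀ a ∈ B, u a ≠ v a)
    (hdis : ∀ a ∈ B, ∀ b ∈ B, a ≠ b → u a ≠ u b ∧ u a ≠ v b ∧ v a ≠ u b ∧ v a ≠ v b) :
    ∃ L, Good g f σ (fun x j => col (φ x) j) c₁ T L ∧ ∃ hu hv : J → ZMod (addOrderOf g),
      (∀ a ∈ B, (hu a = s a ∧ hv a = s a + 1) ∨ (hu a = s a + 1 ∧ hv a = s a)) ∧
      ∀ e t, lt g σ e t ∈ L ↔ lt g σ e t ∈ L₀ ∨
        ∃ a ∈ B, (e = u a ∧ t = hu a) ∨ (e = v a ∧ t = hv a) := by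
  classical
  induction B using Finset.induction_on with
  | empty => exact ⟨L₀, hL₀, fun _ => 0, fun _ => 0, by simp, fun e t => by simp⟩
  | insert a B ha ih =>
    obtain ⟨L, hL, hh, hk, hhk, hmem⟩ := ih (fun b hb => hu b (mem_insert_of_mem hb))
      (fun b hb => hv b (mem_insert_of_mem hb)) (fun b hb => huv b (mem_insert_of_mem hb))
      (fun b hb b' hb' => hdis b (mem_insert_of_mem hb) b' (mem_insert_of_mem hb'))
    obtain ⟨u1, u2, u3, u4⟩ := hu a (mem_insert_self _ _)
    obtain ⟨v1, v2, v3, v4⟩ := hv a (mem_insert_self _ _)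
    have hda : ∀ b ∈ B, u a ≠ u b ∧ u a ≠ v b ∧ v a ≠ u b ∧ v a ≠ v b := fun b hb =>
      hdis a (mem_insert_self _ _) b (mem_insert_of_mem hb) (fun h0 => ha (h0 ▸ hb))
    have hze : ∀ t : ℤ, φ (t • g) = 0 := fun t =>
      (h.ker _).2 (AddSubgroup.zsmul_mem_zmultiples g t)
    have hfree : ∀ t, lt g σ (u a) t ∉ L ∧ lt g σ (v a) t ∉ L := by
      intro t
      rw [hmem, hmem, not_or, not_or]
      refine ⟨⟨u4 t, ?_⟩, v4 t, ?_⟩
      · rintro ⟨b, hb, ⟨h1, -⟩ | ⟨h1, -⟩⟩
        · exact (hda b hb).1 h1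
        · exact (hda b hb).2.1 h1
      · rintro ⟨b, hb, ⟨h1, -⟩ | ⟨h1, -⟩⟩
        · exact (hda b hb).2.2.1 h1
        · exact (hda b hb).2.2.2 h1
    have hltz : ∀ (e : Q × J) (t₀ : ZMod (addOrderOf g)) (t : ℤ),
        ((lt g σ e t₀).1 + t • g, (lt g σ e t₀).2) =
          lt g σ e (t₀ + (t : ZMod (addOrderOf g))) := by
      intro e t₀ t
      unfold lt
      simp only [map_add, io_int, add_assoc]
    have hbase : ∀ (e : Q × J) (t₀ : ZMod (addOrderOf g)), col e.1 e.2 = c₁ →
        col (φ (lt g σ e t₀).1) (lt g σ e t₀).2 = c₁ := by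
      intro e t₀ he
      unfold lt
      simp only
      rw [h.phi_pt]
      exact he
    have hz : ∀ e ∈ T, X a ∈ ends (fun j => φ (f j)) e → ∀ t₀ : ZMod (addOrderOf g),
        (lt g σ e t₀).1 = σ (X a) + io g t₀ ∨
          (lt g σ e t₀).1 + f (lt g σ e t₀).2 = σ (X a) + io g t₀ := by
      intro e he hXe t₀
      rw [hT.pt he]
      rcases mem_ends.1 hXe with h1 | h1
      · left
        rw [h1]
        rfl
      · right
        rw [h1]
    have key := S2 K J g f (fun x j => col (φ x) j) c₁ L (σ (X a) + io g (s a))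
      (lt g σ (u a) (s a)).1 (lt g σ (v a) (s a)).1 (lt g σ (u a) (s a)).2 (lt g σ (v a) (s a)).2
      hg hodd
      (fun t h0 => hf _ (by rw [h0, hze]))
      (fun t h0 => hf _ (by rw [h0, hze])) hd
      (fun x j => by simp only [map_add, h.phi_g, add_zero]) hL.compat hL.cls hL.vc
      (hbase _ _ u2) (hbase _ _ v2)
      (fun t h0 => by
        rw [hltz] at h0
        exact huv a (mem_insert_self _ _) ((lt_inj h).1 h0).1)
      (hz _ u1 u3 _) (hz _ v1 v3 _)
      (fun t => by rw [hltz]; exact (hfree _).1)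
      (fun t => by rw [hltz]; exact (hfree _).2)
    have hcls : ∀ (t t' : ZMod (addOrderOf g)), ∀ l ∈ insert (lt g σ (u a) t)
        (insert (lt g σ (v a) t') L), col (φ l.1) l.2 = c₁ := by
      intro t t' l hl
      rcases mem_insert.1 hl with rfl | hl
      · exact hbase _ _ u2
      · rcases mem_insert.1 hl with rfl | hl
        · exact hbase _ _ v2
        · exact hL.cls l hl
    have hinT : ∀ (t t' : ZMod (addOrderOf g)), InT g σ T (insert (lt g σ (u a) t)
        (insert (lt g σ (v a) t') L)) := by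
      intro t t' l hl
      rcases mem_insert.1 hl with rfl | hl
      · exact ⟨_, u1, _, rfl⟩
      · rcases mem_insert.1 hl with rfl | hl
        · exact ⟨_, v1, _, rfl⟩
        · exact hL.inT l hl
    have hfin : ∀ (t t' : ZMod (addOrderOf g)),
        ((t = s a ∧ t' = s a + 1) ∨ (t = s a + 1 ∧ t' = s a)) →
        Compat g f (fun x j => col (φ x) j) (insert (lt g σ (u a) t)
          (insert (lt g σ (v a) t') L)) →
        VC g f (fun x j => col (φ x) j) c₁ (insert (lt g σ (u a) t)
          (insert (lt g σ (v a) t') L)) →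
        ∃ L, Good g f σ (fun x j => col (φ x) j) c₁ T L ∧ ∃ hu hv : J → ZMod (addOrderOf g),
          (∀ b ∈ insert a B, (hu b = s b ∧ hv b = s b + 1) ∨ (hu b = s b + 1 ∧ hv b = s b)) ∧
          ∀ e t, lt g σ e t ∈ L ↔ lt g σ e t ∈ L₀ ∨
            ∃ b ∈ insert a B, (e = u b ∧ t = hu b) ∨ (e = v b ∧ t = hv b) := by
      intro t t' htt hcmp hvc
      refine ⟨_, ⟨hcmp, hcls t t', hvc, hinT t t'⟩, Function.update hh a t,
        Function.update hk a t', ?_, ?_⟩
      · intro b hb
        by_cases hba : b = a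
        · subst hba
          rw [Function.update_self, Function.update_self]
          exact htt
        · rw [Function.update_of_ne hba, Function.update_of_ne hba]
          exact hhk b (mem_of_mem_insert_of_ne hb hba)
      · intro e t₁
        rw [mem_insert, mem_insert, hmem, lt_inj h, lt_inj h]
        constructor
        · rintro (⟨rfl, rfl⟩ | ⟨rfl, rfl⟩ | h3 | ⟨b, hb, h3⟩)
          · exact Or.inr ⟨a, mem_insert_self _ _, Or.inl ⟨rfl, by rw [Function.update_self]⟩⟩
          · exact Or.inr ⟨a, mem_insert_self _ _, Or.inr ⟨rfl, by rw [Function.update_self]⟩⟩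
          · exact Or.inl h3
          · refine Or.inr ⟨b, mem_insert_of_mem hb, ?_⟩
            have hba : b ≠ a := fun h0 => ha (h0 ▸ hb)
            rw [Function.update_of_ne hba, Function.update_of_ne hba]
            exact h3
        · rintro (h3 | ⟨b, hb, h3⟩)
          · exact Or.inr (Or.inr (Or.inl h3))
          · by_cases hba : b = a
            · subst hba
              rw [Function.update_self, Function.update_self] at h3
              rcases h3 with h3 | h3
              · exact Or.inl h3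
              · exact Or.inr (Or.inl h3)
            · rw [Function.update_of_ne hba, Function.update_of_ne hba] at h3
              exact Or.inr (Or.inr (Or.inr ⟨b, mem_of_mem_insert_of_ne hb hba, h3⟩))
    have e1 : ((lt g σ (u a) (s a)).1, (lt g σ (u a) (s a)).2) = lt g σ (u a) (s a) := rfl
    have e2 : ((lt g σ (v a) (s a)).1, (lt g σ (v a) (s a)).2) = lt g σ (v a) (s a) := rfl
    rw [lt_add, lt_add, e1, e2] at key
    rcases key with ⟨k1, k2⟩ | ⟨k1, k2⟩
    · exact hfin _ _ (Or.inl ⟨rfl, rfl⟩) k1 k2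
    · exact hfin _ _ (Or.inr ⟨rfl, rfl⟩) k1 k2

end Stages

end Pool.Agent.Helper43.TD
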